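import Mathlib

set_option autoImplicit false

namespace Pool.Agent.Results.MP_fbcaa5_co.KneserGap

open Finset Matrix

/-- The Kneser graph `K(n,k)`: its vertices are the `k`-element subsets of `Fin n`, two distinct
vertices being adjacent when they are disjoint. -/
def kneser (n k : ℕ) : SimpleGraph {s : Finset (Fin n) // s.card = k} where
  Adj s t := s ≠ t ∧ Disjoint s.1 t.1
  symm := ⟨fun _ _ h => ⟨h.1.symm, h.2.symm⟩⟩
  loopless := ⟨fun _ h => h.1 rfl⟩

/-- `P` is a quantum `c`-colouring of `G` in dimension `d`: every `P v i` is an orthogonal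
projection of `ℂ^d`, the projections at a vertex sum to the identity, and at the two ends of an
edge the projections of one colour multiply to zero. -/
structure IsQuantumColouring {V : Type} (G : SimpleGraph V) (c d : ℕ)
    (P : V → Fin c → Matrix (Fin d) (Fin d) ℂ) : Prop where
  herm : ∀ v i, (P v i)ᴴ = P v i
  idem : ∀ v i, P v i * P v i = P v i
  sum_one : ∀ v, ∑ i, P v i = 1
  orth : ∀ u v, G.Adj u v → ∀ i, P u i * P v i = 0

/-- `G` has a quantum `c`-colouring in some finite dimension `d ≥ 1`. -/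
def QuantumColourable {V : Type} (G : SimpleGraph V) (c : ℕ) : Prop :=
  ∃ d : ℕ, 1 ≤ d ∧ ∃ P : V → Fin c → Matrix (Fin d) (Fin d) ℂ, IsQuantumColouring G c d P

/-- The quantum chromatic number: the least `c` such that `G` has a quantum `c`-colouring in
some finite dimension. -/
noncomputable def chiQ {V : Type} (G : SimpleGraph V) : ℕ :=
  sInf {c : ℕ | QuantumColourable G c}

/-! ### The classical lower bound -/

lemma card_pair {α : Type} [DecidableEq α] (V : Finset α) (k : ℕ) (a b : α) (hab : a ≠ b)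
    (ha : a ∈ V) (hb : b ∈ V) (hk : 2 ≤ k) :
    ((V.powersetCard k).filter (fun F => a ∈ F ∧ b ∈ F)).card ≤ (V.card - 2).choose (k - 2) := by
  have hV : ((V.erase a).erase b).card = V.card - 2 := by
    rw [Finset.card_erase_of_mem (Finset.mem_erase.mpr ⟨hab.symm, hb⟩), Finset.card_erase_of_mem ha]
    omega
  rw [← hV, ← Finset.card_powersetCard]
  apply Finset.card_le_card_of_injOn (fun F => (F.erase a).erase b)
  · intro F hF
    simp only [Finset.coe_filter, Finset.mem_powersetCard, Set.mem_ofPred_eq] at hF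
    obtain ⟨⟨hFV, hFk⟩, haF, hbF⟩ := hF
    rw [Finset.mem_coe, Finset.mem_powersetCard]
    refine ⟨Finset.erase_subset_erase _ (Finset.erase_subset_erase _ hFV), ?_⟩
    rw [Finset.card_erase_of_mem (Finset.mem_erase.mpr ⟨hab.symm, hbF⟩),
      Finset.card_erase_of_mem haF]
    omega
  · intro F hF G hG hFG
    simp only [Finset.coe_filter, Finset.mem_powersetCard, Set.mem_ofPred_eq] at hF hG
    obtain ⟨-, haF, hbF⟩ := hF
    obtain ⟨-, haG, hbG⟩ := hG
    simp only at hFG
    have h1 : insert b ((F.erase a).erase b) = F.erase a :=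
      Finset.insert_erase (Finset.mem_erase.mpr ⟨hab.symm, hbF⟩)
    have h2 : insert b ((G.erase a).erase b) = G.erase a :=
      Finset.insert_erase (Finset.mem_erase.mpr ⟨hab.symm, hbG⟩)
    rw [← Finset.insert_erase haF, ← Finset.insert_erase haG, ← h1, ← h2, hFG]

/-- A non-trivial intersecting family of `k`-sets is small. -/
lemma nontrivial_card {α : Type} [DecidableEq α] (V : Finset α) (k : ℕ) (hk : 2 ≤ k)
    (F : Finset (Finset α)) (hF : F ⊆ V.powersetCard k)
    (hint : ∀ A ∈ F, ∀ B ∈ F, ¬ Disjoint A B) (hnt : ∀ v ∈ V, ∃ A ∈ F, v ∉ A) :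
    F.card ≤ k * (k * (V.card - 2).choose (k - 2)) := by
  rcases F.eq_empty_or_nonempty with h0 | ⟨A, hA⟩
  · subst h0; simp
  have hch : ∀ v : α, ∃ B : Finset α, v ∈ V → (B ∈ F ∧ v ∉ B) := by
    intro v
    by_cases hv : v ∈ V
    · obtain ⟨B, hB, hvB⟩ := hnt v hv
      exact ⟨B, fun _ => ⟨hB, hvB⟩⟩
    · exact ⟨∅, fun h => absurd h hv⟩
  choose B hB using hch
  have hmem : ∀ G ∈ F, G ⊆ V ∧ G.card = k := fun G hG => Finset.mem_powersetCard.mp (hF hG)
  have hsub : F ⊆ A.biUnion (fun a => (B a).biUnion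
      (fun b => (V.powersetCard k).filter (fun G => a ∈ G ∧ b ∈ G))) := by
    intro G hG
    have h1 := hint G hG A hA
    rw [Finset.not_disjoint_iff] at h1
    obtain ⟨a, haG, haA⟩ := h1
    have haV : a ∈ V := (hmem A hA).1 haA
    have h2 := hint G hG (B a) (hB a haV).1
    rw [Finset.not_disjoint_iff] at h2
    obtain ⟨b, hbG, hbB⟩ := h2
    simp only [Finset.mem_biUnion, Finset.mem_filter]
    exact ⟨a, haA, b, hbB, hF hG, haG, hbG⟩
  calc F.card ≤ _ := Finset.card_le_card hsub
    _ ≤ ∑ a ∈ A, ((B a).biUnion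
      (fun b => (V.powersetCard k).filter (fun G => a ∈ G ∧ b ∈ G))).card :=
        Finset.card_biUnion_le
    _ ≤ ∑ a ∈ A, (k * (V.card - 2).choose (k - 2)) := by
        refine Finset.sum_le_sum fun a ha => ?_
        have haV : a ∈ V := (hmem A hA).1 ha
        obtain ⟨hBF, haB⟩ := hB a haV
        calc _ ≤ ∑ b ∈ B a, ((V.powersetCard k).filter (fun G => a ∈ G ∧ b ∈ G)).card :=
              Finset.card_biUnion_le
          _ ≤ ∑ b ∈ B a, (V.card - 2).choose (k - 2) := by
              refine Finset.sum_le_sum fun b hb => ?_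
              exact card_pair V k a b (fun h => haB (h ▸ hb)) haV ((hmem _ hBF).1 hb) hk
          _ = k * (V.card - 2).choose (k - 2) := by
              rw [Finset.sum_const, (hmem _ hBF).2, smul_eq_mul]
    _ = k * (k * (V.card - 2).choose (k - 2)) := by
        rw [Finset.sum_const, (hmem A hA).2, smul_eq_mul]

lemma choose_two (n k : ℕ) (hn : 2 ≤ n) (hk : 2 ≤ k) :
    n * (n - 1) * (n - 2).choose (k - 2) = k * (k - 1) * n.choose k := by
  obtain ⟨n, rfl⟩ := Nat.exists_eq_add_of_le hn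
  obtain ⟨k, rfl⟩ := Nat.exists_eq_add_of_le hk
  have e1 : 2 + n - 1 = n + 1 := by omega
  have e2 : 2 + n - 2 = n := by omega
  have e3 : 2 + k - 1 = k + 1 := by omega
  have e4 : 2 + k - 2 = k := by omega
  have e5 : 2 + n = n + 2 := by omega
  have e6 : 2 + k = k + 2 := by omega
  rw [e1, e2, e3, e4, e5, e6]
  have h1 := Nat.add_one_mul_choose_eq n k
  have h2 := Nat.add_one_mul_choose_eq (n + 1) (k + 1)
  calc (n + 2) * (n + 1) * n.choose k = (n + 2) * ((n + 1) * n.choose k) := by ring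
    _ = (n + 2) * ((n + 1).choose (k + 1) * (k + 1)) := by rw [h1]
    _ = ((n + 1 + 1) * (n + 1).choose (k + 1)) * (k + 1) := by ring
    _ = ((n + 1 + 1).choose (k + 1 + 1) * (k + 1 + 1)) * (k + 1) := by rw [h2]
    _ = _ := by ring

/-- There is no proper colouring of the `k`-subsets of an `n`-set with `n - g` colours. -/
lemma no_coloring {α β : Type} [DecidableEq α] [DecidableEq β] (k g : ℕ) (hk : 2 ≤ k)
    (hkg : k ≤ g) (hg : (k ^ 3 * (k - 1) + 1) ^ 2 < 4 * (k ^ 3 * (k - 1)) * g) (c : ℕ) :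
    ∀ (C : Finset β) (V : Finset α) (κ : Finset α → β), C.card = c → c + g ≤ V.card →
      (∀ A ∈ V.powersetCard k, κ A ∈ C) →
      (∀ A ∈ V.powersetCard k, ∀ B ∈ V.powersetCard k, Disjoint A B → κ A ≠ κ B) → False := by
  induction c with
  | zero =>
    intro C V κ hC hV hκ _
    rw [Finset.card_eq_zero] at hC
    subst hC
    have hne : (V.powersetCard k).Nonempty := by
      rw [Finset.powersetCard_nonempty]; omega
    obtain ⟨A, hA⟩ := hne
    exact absurd (hκ A hA) (Finset.notMem_empty _)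
  | succ c ih =>
    intro C V κ hC hV hκ hdis
    by_cases hstar : ∃ i ∈ C, ∃ v ∈ V, ∀ A ∈ V.powersetCard k, κ A = i → v ∈ A
    · obtain ⟨i, hi, v, hv, hst⟩ := hstar
      have hsub : ∀ A ∈ (V.erase v).powersetCard k, A ∈ V.powersetCard k ∧ v ∉ A := by
        intro A hA
        rw [Finset.mem_powersetCard] at hA ⊢
        refine ⟨⟨hA.1.trans (Finset.erase_subset _ _), hA.2⟩, fun h => ?_⟩
        exact Finset.notMem_erase v V (hA.1 h)
      refine ih (C.erase i) (V.erase v) κ ?_ ?_ ?_ ?_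
      · rw [Finset.card_erase_of_mem hi]; omega
      · rw [Finset.card_erase_of_mem hv]; omega
      · intro A hA
        obtain ⟨h1, h2⟩ := hsub A hA
        exact Finset.mem_erase.mpr ⟨fun h => h2 (hst A h1 h), hκ A h1⟩
      · intro A hA B hB
        exact hdis A (hsub A hA).1 B (hsub B hB).1
    · push Not at hstar
      have hcard : (V.powersetCard k).card
          = ∑ i ∈ C, ((V.powersetCard k).filter (fun A => κ A = i)).card :=
        Finset.card_eq_sum_card_fiberwise (fun A hA => hκ A hA)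
      have hle : (V.powersetCard k).card ≤ (c + 1) * (k * (k * (V.card - 2).choose (k - 2))) := by
        rw [hcard, ← hC]
        calc _ ≤ ∑ i ∈ C, (k * (k * (V.card - 2).choose (k - 2))) := by
              refine Finset.sum_le_sum fun i hi => ?_
              apply nontrivial_card V k hk _ (Finset.filter_subset _ _)
              · intro A hA B hB hAB
                rw [Finset.mem_filter] at hA hB
                exact hdis A hA.1 B hB.1 hAB (hA.2.trans hB.2.symm)
              · intro v hv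
                obtain ⟨A, hA, hAi, hvA⟩ := hstar i hi v hv
                exact ⟨A, Finset.mem_filter.mpr ⟨hA, hAi⟩, hvA⟩
          _ = _ := by rw [Finset.sum_const, smul_eq_mul]
      rw [Finset.card_powersetCard] at hle
      set n := V.card with hn
      have hn2 : 2 ≤ n := by omega
      have hch := choose_two n k hn2 hk
      have hpos : 0 < (n - 2).choose (k - 2) := Nat.choose_pos (by omega)
      set P := (n - 2).choose (k - 2) with hP
      have h1 : n * (n - 1) * P ≤ (k ^ 3 * (k - 1)) * (c + 1) * P := by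
        rw [hch]
        calc k * (k - 1) * n.choose k ≤ k * (k - 1) * ((c + 1) * (k * (k * P))) :=
              Nat.mul_le_mul_left _ hle
          _ = _ := by ring
      have h2 : n * (n - 1) ≤ (k ^ 3 * (k - 1)) * (c + 1) := Nat.le_of_mul_le_mul_right h1 hpos
      set K := k ^ 3 * (k - 1) with hK
      have h3 : K * (c + 1) + K * g ≤ K * n := by
        rw [← Nat.mul_add]; exact Nat.mul_le_mul_left _ hV
      have h4 : n * (n - 1) + n = n * n := by
        obtain ⟨t, ht⟩ := Nat.exists_eq_add_of_le (show 1 ≤ n by omega)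
        rw [ht]; simp; ring
      have h5 : n * n + K * g ≤ (K + 1) * n := by nlinarith
      zify at h5 hg
      nlinarith [sq_nonneg ((2 : ℤ) * n - (K + 1))]

lemma kneser_not_colorable (n k g : ℕ) (hk : 2 ≤ k)
    (hkg : k ≤ g) (hg : (k ^ 3 * (k - 1) + 1) ^ 2 < 4 * (k ^ 3 * (k - 1)) * g) (hn : g ≤ n) :
    ¬ (kneser n k).Colorable (n - g) := by
  rintro ⟨φ⟩
  classical
  let κ : Finset (Fin n) → Option (Fin (n - g)) := fun A =>
    if h : A.card = k then some (φ ⟨A, h⟩) else none
  refine no_coloring (α := Fin n) (β := Option (Fin (n - g))) k g hk hkg hg (n - g)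
    (univ.image some) univ κ ?_ ?_ ?_ ?_
  · rw [Finset.card_image_of_injective _ (Option.some_injective _)]; simp
  · simp; omega
  · intro A hA
    have hAk : A.card = k := (Finset.mem_powersetCard.mp hA).2
    simp only [κ, dif_pos hAk]
    exact Finset.mem_image_of_mem _ (Finset.mem_univ _)
  · intro A hA B hB hAB hc
    have hAk : A.card = k := (Finset.mem_powersetCard.mp hA).2
    have hBk : B.card = k := (Finset.mem_powersetCard.mp hB).2
    simp only [κ, dif_pos hAk, dif_pos hBk, Option.some.injEq] at hc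
    refine φ.valid (v := ⟨A, hAk⟩) (w := ⟨B, hBk⟩) ⟨?_, hAB⟩ hc
    intro h
    have hAB' : A = B := congrArg Subtype.val h
    subst hAB'
    rw [disjoint_self] at hAB
    have : A.card = 0 := by rw [hAB]; rfl
    omega

/-- The lower bound for the chromatic number. -/
lemma chromatic_lower (n k g : ℕ) (hk : 2 ≤ k)
    (hkg : k ≤ g) (hg : (k ^ 3 * (k - 1) + 1) ^ 2 < 4 * (k ^ 3 * (k - 1)) * g) (hn : g ≤ n) :
    ((n - g + 1 : ℕ) : ℕ∞) ≤ (kneser n k).chromaticNumber := by
  by_contra h
  push Not at h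
  have h1 : (kneser n k).chromaticNumber ≤ ((n - g : ℕ) : ℕ∞) := by
    exact Order.le_of_lt_add_one (by exact_mod_cast h)
  exact kneser_not_colorable n k g hk hkg hg hn (SimpleGraph.chromaticNumber_le_iff_colorable.mp h1)

/-! ### The quantum colouring -/

section real

variable {V : Type} [Fintype V] [DecidableEq V]

/-- A real orthogonal projection. -/
def Good (Q : Matrix V V ℝ) : Prop := Qᵀ = Q ∧ Q * Q = Q

lemma Good.zero : Good (0 : Matrix V V ℝ) := ⟨by simp, by simp⟩

lemma Good.one : Good (1 : Matrix V V ℝ) := ⟨by simp, by simp⟩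

lemma Good.compl {Q : Matrix V V ℝ} (h : Good Q) : Good (1 - Q) := by
  refine ⟨by rw [transpose_sub, transpose_one, h.1], ?_⟩
  rw [sub_mul, one_mul, mul_sub, mul_one, h.2]; simp

/-- the rank one matrix of `y` -/
def pr (y : V → ℝ) : Matrix V V ℝ := vecMulVec y y

lemma pr_mul (A : Matrix V V ℝ) (y : V → ℝ) : A * pr y = vecMulVec (A *ᵥ y) y := by
  unfold pr; rw [Matrix.mul_vecMulVec]

lemma pr_transpose (y : V → ℝ) : (pr y)ᵀ = pr y := by
  unfold pr; rw [Matrix.transpose_vecMulVec]

lemma pr_mulVec (y z : V → ℝ) : pr y *ᵥ z = (y ⬝ᵥ z) • y := by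
  unfold pr
  rw [Matrix.vecMulVec_mulVec]
  ext i; simp [mul_comm]

lemma pr_mul_pr (y z : V → ℝ) (h : y ⬝ᵥ z = 0) : pr y * pr z = 0 := by
  rw [pr_mul, pr_mulVec, h]; simp [vecMulVec]; rfl

lemma pr_good (y : V → ℝ) (h : y ⬝ᵥ y = 1) : Good (pr y) := by
  refine ⟨pr_transpose y, ?_⟩
  rw [pr_mul, pr_mulVec, h, one_smul]; rfl

/-- three complementary projections avoiding three given vectors -/
def Trip (u v w : V → ℝ) : Prop :=
  ∃ A B C : Matrix V V ℝ, Good A ∧ Good B ∧ Good C ∧ A + B + C = 1 ∧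
    A * pr u = 0 ∧ B * pr v = 0 ∧ C * pr w = 0

lemma Trip.rot {u v w : V → ℝ} (h : Trip u v w) : Trip v w u := by
  obtain ⟨A, B, C, hA, hB, hC, hs, h1, h2, h3⟩ := h
  exact ⟨B, C, A, hB, hC, hA, by rw [← hs]; abel, h2, h3, h1⟩

lemma Trip.swap {u v w : V → ℝ} (h : Trip u v w) : Trip v u w := by
  obtain ⟨A, B, C, hA, hB, hC, hs, h1, h2, h3⟩ := h
  exact ⟨B, A, C, hB, hA, hC, by rw [← hs]; abel, h2, h1, h3⟩

/-- two orthogonal vectors (of length `sqrt 2`) -/
lemma trip_orth {u v w : V → ℝ} (hu : u ⬝ᵥ u = 2) (huv : u ⬝ᵥ v = 0) : Trip u v w := by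
  have hg : Good ((1 / 2 : ℝ) • pr u) := by
    refine ⟨by rw [transpose_smul, pr_transpose], ?_⟩
    rw [smul_mul_smul_comm, pr_mul, pr_mulVec, hu]
    ext i j
    simp [vecMulVec, pr]
    ring
  refine ⟨1 - (1 / 2 : ℝ) • pr u, (1 / 2 : ℝ) • pr u, 0, hg.compl, hg, Good.zero, by abel, ?_, ?_,
    by simp⟩
  · rw [sub_mul, one_mul, smul_mul_assoc, pr_mul, pr_mulVec, hu]
    ext i j
    simp [vecMulVec, pr]
    ring
  · rw [smul_mul_assoc, pr_mul_pr u v huv, smul_zero]

lemma trip_of {u v w y z : V → ℝ} (α β : ℝ) (hu : u = α • y + β • z) (hy : y ⬝ᵥ y = 1)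
    (hz : z ⬝ᵥ z = 1) (hyz : y ⬝ᵥ z = 0) (hv : y ⬝ᵥ v = 0) (hw : z ⬝ᵥ w = 0) : Trip u v w := by
  have hzy : z ⬝ᵥ y = 0 := by rw [dotProduct_comm]; exact hyz
  have hyp := pr_good y hy
  have hzp := pr_good z hz
  refine ⟨1 - pr y - pr z, pr y, pr z, ⟨?_, ?_⟩, hyp, hzp, by abel, ?_, pr_mul_pr _ _ hv,
    pr_mul_pr _ _ hw⟩
  · rw [transpose_sub, transpose_sub, transpose_one, hyp.1, hzp.1]
  · simp only [sub_mul, mul_sub, one_mul, mul_one, hyp.2, hzp.2, pr_mul_pr y z hyz,
      pr_mul_pr z y hzy]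
    abel
  · rw [pr_mul, sub_mulVec, sub_mulVec, one_mulVec, pr_mulVec, pr_mulVec]
    have h1 : y ⬝ᵥ u = α := by
      rw [hu, dotProduct_add, dotProduct_smul, dotProduct_smul, hy, hyz]; simp
    have h2 : z ⬝ᵥ u = β := by
      rw [hu, dotProduct_add, dotProduct_smul, dotProduct_smul, hz, hzy]; simp
    rw [h1, h2]
    have h3 : u - α • y - β • z = 0 := by rw [hu]; abel
    rw [h3]
    ext i j; simp [vecMulVec]

/-- unit vectors -/
def e (x : V) : V → ℝ := Pi.single x 1

lemma e_dot (x y : V) : e x ⬝ᵥ e y = if x = y then 1 else 0 := by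
  unfold e
  rw [single_dotProduct, one_mul, Pi.single_apply]

/-- a root supported on the two coordinates `l`, `r` -/
def Root (u : V → ℝ) (l r : V) : Prop :=
  l ≠ r ∧ ∃ σ ε : ℝ, σ * σ = 1 ∧ ε * ε = 1 ∧ u = σ • (e l + ε • e r)

lemma Root.symm {u : V → ℝ} {l r : V} (h : Root u l r) : Root u r l := by
  obtain ⟨hlr, σ, ε, hσ, hε, hu⟩ := h
  refine ⟨hlr.symm, σ * ε, ε, by linear_combination (ε * ε) * hσ + hε, hε, ?_⟩
  rw [hu]
  ext i
  simp only [Pi.smul_apply, Pi.add_apply, smul_eq_mul]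
  linear_combination -(σ * e l i) * hε

lemma Root.dot_self {u : V → ℝ} {l r : V} (h : Root u l r) : u ⬝ᵥ u = 2 := by
  obtain ⟨hlr, σ, ε, hσ, hε, hu⟩ := h
  rw [hu]
  simp only [dotProduct_smul, smul_dotProduct, dotProduct_add, add_dotProduct, e_dot, smul_eq_mul,
    if_neg hlr, if_neg hlr.symm, if_true]
  linear_combination (1 + ε * ε) * hσ + hε

lemma Root.dot_disjoint {u v : V → ℝ} {l r l' r' : V} (h : Root u l r) (h' : Root v l' r')
    (h1 : l ≠ l') (h2 : l ≠ r') (h3 : r ≠ l') (h4 : r ≠ r') : u ⬝ᵥ v = 0 := by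
  obtain ⟨hlr, σ, ε, hσ, hε, hu⟩ := h
  obtain ⟨hlr', σ', ε', hσ', hε', hv⟩ := h'
  rw [hu, hv]
  simp [dotProduct_smul, smul_dotProduct, dotProduct_add, add_dotProduct, e_dot, h1, h2, h3, h4]

/-- three roots through a common coordinate -/
lemma trip_star {u v w : V → ℝ} {l p q r : V} (hu : Root u l p) (hv : Root v l q)
    (hw : Root w l r) (hpq : p ≠ q) (hpr : p ≠ r) (hqr : q ≠ r) : Trip u v w := by
  obtain ⟨hlp, σ, ε, hσ, hε, hu⟩ := hu
  obtain ⟨hlq, σ', δ, hσ', hδ, hv⟩ := hv
  obtain ⟨hlr, σ'', η, hσ'', hη, hw⟩ := hw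
  have D : ∀ (a b c d a' b' c' d' : ℝ),
      (a • e l + b • e p + c • e q + d • e r) ⬝ᵥ (a' • e l + b' • e p + c' • e q + d' • e r)
        = a * a' + b * b' + c * c' + d * d' := by
    intro a b c d a' b' c' d'
    simp only [dotProduct_smul, smul_dotProduct, dotProduct_add, add_dotProduct, e_dot,
      smul_eq_mul, if_neg hlp, if_neg hlq, if_neg hlr, if_neg hpq, if_neg hpr, if_neg hqr,
      if_neg hlp.symm, if_neg hlq.symm, if_neg hlr.symm, if_neg hpq.symm, if_neg hpr.symm,
      if_neg hqr.symm, if_true]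
    ring
  have hv' : v = σ' • e l + (0 : ℝ) • e p + (σ' * δ) • e q + (0 : ℝ) • e r := by
    rw [hv]; ext i; simp only [Pi.smul_apply, Pi.add_apply, smul_eq_mul]; ring
  have hw' : w = σ'' • e l + (0 : ℝ) • e p + (0 : ℝ) • e q + (σ'' * η) • e r := by
    rw [hw]; ext i; simp only [Pi.smul_apply, Pi.add_apply, smul_eq_mul]; ring
  refine trip_of (y := (1 / 2 : ℝ) • e l + (ε / 2) • e p + (-δ / 2) • e q + (η / 2) • e r)
    (z := (1 / 2 : ℝ) • e l + (ε / 2) • e p + (δ / 2) • e q + (-η / 2) • e r) σ σ ?_ ?_ ?_ ?_ ?_ ?_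
  · rw [hu]; ext i; simp only [Pi.smul_apply, Pi.add_apply, smul_eq_mul]; ring
  · rw [D]; linear_combination (1 / 4) * hε + (1 / 4) * hδ + (1 / 4) * hη
  · rw [D]; linear_combination (1 / 4) * hε + (1 / 4) * hδ + (1 / 4) * hη
  · rw [D]; linear_combination (1 / 4) * hε - (1 / 4) * hδ - (1 / 4) * hη
  · rw [hv', D]; linear_combination -(σ' / 2) * hδ
  · rw [hw', D]; linear_combination -(σ'' / 2) * hη

/-- three roots on a triangle -/
lemma trip_triangle {u v w : V → ℝ} {l p q : V} (hu : Root u l p) (hv : Root v l q)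
    (hw : Root w p q) : Trip u v w := by
  obtain ⟨hlp, σ, ε, hσ, hε, hu⟩ := hu
  obtain ⟨hlq, σ', δ, hσ', hδ, hv⟩ := hv
  obtain ⟨hpq, σ'', η, hσ'', hη, hw⟩ := hw
  refine trip_of (y := e p) (z := e l) (σ * ε) σ ?_ ?_ ?_ ?_ ?_ ?_
  · rw [hu]; ext i; simp only [Pi.smul_apply, Pi.add_apply, smul_eq_mul]; ring
  · rw [e_dot, if_pos rfl]
  · rw [e_dot, if_pos rfl]
  · rw [e_dot, if_neg hlp.symm]
  · rw [hv]; simp [dotProduct_smul, dotProduct_add, e_dot, hlp.symm, hpq]
  · rw [hw]; simp [dotProduct_smul, dotProduct_add, e_dot, hlp, hlq]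

/-- The system of roots: `(p,q)` and `(q,p)` give orthogonal roots. -/
structure Sys (u : V × V → (V → ℝ)) : Prop where
  root : ∀ p q, p ≠ q → Root (u (p, q)) p q
  orth : ∀ p q, p ≠ q → u (p, q) ⬝ᵥ u (q, p) = 0

lemma Sys.trip_aux {u : V × V → (V → ℝ)} (h : Sys u) {a b c : V × V} (ha : a.1 ≠ a.2)
    (hb : b.1 ≠ b.2) (hc : c.1 ≠ c.2) (hab : a ≠ b) (hac : a ≠ c) (hbc : b ≠ c) :
    Trip (u a) (u b) (u c) := by
  obtain ⟨a1, a2⟩ := a
  obtain ⟨b1, b2⟩ := b
  obtain ⟨c1, c2⟩ := c
  simp only at ha hb hc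
  have ra := h.root a1 a2 ha
  have rb := h.root b1 b2 hb
  have rc := h.root c1 c2 hc
  by_cases oab : u (a1, a2) ⬝ᵥ u (b1, b2) = 0
  · exact trip_orth ra.dot_self oab
  by_cases obc : u (b1, b2) ⬝ᵥ u (c1, c2) = 0
  · exact (trip_orth (w := u (a1, a2)) rb.dot_self obc).rot.rot
  by_cases oca : u (c1, c2) ⬝ᵥ u (a1, a2) = 0
  · exact (trip_orth (w := u (b1, b2)) rc.dot_self oca).rot
  -- a general statement about two nonorthogonal roots
  have key : ∀ p q r s : V, p ≠ q → r ≠ s → (p, q) ≠ (r, s) → ¬ (u (p, q) ⬝ᵥ u (r, s) = 0) →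
      (p = r ∧ q ≠ s) ∨ (p = s ∧ q ≠ r) ∨ (q = r ∧ p ≠ s) ∨ (q = s ∧ p ≠ r) := by
    intro p q r s hpq hrs hne hno
    by_cases h1 : p = r
    · left; refine ⟨h1, fun h2 => hne (by rw [h1, h2])⟩
    by_cases h2 : q = s
    · right; right; right; exact ⟨h2, h1⟩
    by_cases h3 : p = s
    · right; left; refine ⟨h3, fun h4 => hno ?_⟩
      subst h3; subst h4
      exact h.orth p q hpq
    by_cases h4 : q = r
    · right; right; left; exact ⟨h4, h3⟩
    exact absurd ((h.root p q hpq).dot_disjoint (h.root r s hrs) h1 h3 h4 h2) hno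
  have kab := key a1 a2 b1 b2 ha hb hab oab
  have kbc := key b1 b2 c1 c2 hb hc hbc obc
  have kca := key c1 c2 a1 a2 hc ha hac.symm oca
  have rc' := rc
  -- normal form: `a = {l, p}`, `b = {l, q}`
  have nf : ∀ l p q : V, Root (u (a1, a2)) l p → Root (u (b1, b2)) l q → p ≠ q →
      ((l = a1 ∧ p = a2) ∨ (l = a2 ∧ p = a1)) → ((l = b1 ∧ q = b2) ∨ (l = b2 ∧ q = b1)) →
      Trip (u (a1, a2)) (u (b1, b2)) (u (c1, c2)) := by
    intro l p q h1 h2 hpq h3 h4
    clear ra rb rc oab obc oca key kab hab hac hbc h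
    have hlp : l ≠ p := h1.1
    have hlq : l ≠ q := h2.1
    by_cases hl1 : l = c1
    · have h5 : p ≠ c2 := by grind
      have h6 : q ≠ c2 := by grind
      exact trip_star h1 h2 (hl1 ▸ rc') hpq h5 h6
    by_cases hl2 : l = c2
    · have h5 : p ≠ c1 := by grind
      have h6 : q ≠ c1 := by grind
      exact trip_star h1 h2 (hl2 ▸ rc'.symm) hpq h5 h6
    · have h7 : (p = c1 ∧ q = c2) ∨ (p = c2 ∧ q = c1) := by grind
      rcases h7 with ⟨e1, e2⟩ | ⟨e1, e2⟩
      · exact trip_triangle h1 h2 (by rw [e1, e2]; exact rc')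
      · exact trip_triangle h1 h2 (by rw [e1, e2]; exact rc'.symm)
  rcases kab with ⟨k1, k2⟩ | ⟨k1, k2⟩ | ⟨k1, k2⟩ | ⟨k1, k2⟩
  · exact nf a1 a2 b2 ra (k1 ▸ rb) k2 (Or.inl ⟨rfl, rfl⟩) (Or.inl ⟨k1, rfl⟩)
  · exact nf a1 a2 b1 ra (k1 ▸ rb.symm) k2 (Or.inl ⟨rfl, rfl⟩) (Or.inr ⟨k1, rfl⟩)
  · exact nf a2 a1 b2 ra.symm (k1 ▸ rb) k2 (Or.inr ⟨rfl, rfl⟩) (Or.inl ⟨k1, rfl⟩)
  · exact nf a2 a1 b1 ra.symm (k1 ▸ rb.symm) k2 (Or.inr ⟨rfl, rfl⟩) (Or.inr ⟨k1, rfl⟩)

end real

section group

variable {V : Type} [Fintype V] [DecidableEq V]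

/-- sign of an ordered pair -/
def sg (o : V → ℕ) (p q : V) : ℝ := if o p < o q then 1 else -1

lemma sg_mul_self (o : V → ℕ) (p q : V) : sg o p q * sg o p q = 1 := by
  unfold sg; split_ifs <;> norm_num

lemma sg_swap (o : V → ℕ) (ho : Function.Injective o) {p q : V} (h : p ≠ q) :
    sg o q p = - sg o p q := by
  have hne : o p ≠ o q := fun h' => h (ho h')
  unfold sg
  rcases lt_or_gt_of_ne hne with h1 | h1
  · rw [if_pos h1, if_neg (by omega)]
  · rw [if_pos h1, if_neg (by omega)]; norm_num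

/-- the root of an ordered pair -/
def uu (o : V → ℕ) (a : V × V) : V → ℝ := e a.1 + sg o a.1 a.2 • e a.2

lemma sys_uu (o : V → ℕ) (ho : Function.Injective o) : Sys (uu o) := by
  constructor
  · intro p q h
    refine ⟨h, 1, sg o p q, by norm_num, sg_mul_self o p q, ?_⟩
    rw [one_smul]; rfl
  · intro p q h
    unfold uu
    simp only [dotProduct_smul, smul_dotProduct, dotProduct_add, add_dotProduct, e_dot,
      smul_eq_mul, if_neg h, if_neg h.symm, if_true, sg_swap o ho h]
    ring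

/-- half of the rank one matrix of a root -/
noncomputable def NN (o : V → ℕ) (a : V × V) : Matrix V V ℝ := (1 / 2 : ℝ) • pr (uu o a)

lemma NN_good (o : V → ℕ) (ho : Function.Injective o) (a : V × V) (ha : a.1 ≠ a.2) :
    Good (NN o a) := by
  have hu := ((sys_uu o ho).root a.1 a.2 ha).dot_self
  unfold NN
  refine ⟨by rw [transpose_smul, pr_transpose], ?_⟩
  rw [smul_mul_smul_comm, pr_mul, pr_mulVec, hu]
  ext i j
  simp [vecMulVec, pr]
  ring

lemma sum_pr_e : ∑ p : V, pr (e p) = (1 : Matrix V V ℝ) := by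
  ext i j
  rw [Matrix.sum_apply]
  simp only [pr, vecMulVec_apply, e, Pi.single_apply, Matrix.one_apply]
  rw [Finset.sum_eq_single i]
  · simp [eq_comm]
  · intro b _ hb; simp [hb.symm]
  · simp

variable [AddCommGroup V]

lemma sum_NN (o : V → ℕ) (ho : Function.Injective o) (h2 : ∀ x : V, x + x = 0) (h : V)
    (hh : h ≠ 0) : ∑ p : V, NN o (p, p + h) = 1 := by
  have hne : ∀ p : V, p ≠ p + h := fun p hp => hh (by simpa using hp.symm)
  have hinv : ∀ p : V, p + h + h = p := fun p => by rw [add_assoc, h2, add_zero]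
  have hterm : ∀ p : V, NN o (p, p + h) = (1 / 2 : ℝ) • (pr (e p) + pr (e (p + h)))
      + (1 / 2 : ℝ) • (sg o p (p + h) •
        (vecMulVec (e p) (e (p + h)) + vecMulVec (e (p + h)) (e p))) := by
    intro p
    have hs := sg_mul_self o p (p + h)
    ext i j
    simp only [NN, uu, pr, Matrix.smul_apply, Matrix.add_apply, vecMulVec_apply, Pi.add_apply,
      Pi.smul_apply, smul_eq_mul]
    linear_combination (1 / 2 * e (p + h) i * e (p + h) j) * hs
  have hshift : ∀ f : V → Matrix V V ℝ, ∑ p, f (p + h) = ∑ p, f p := fun f =>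
    Fintype.sum_equiv (Equiv.addRight h) _ _ fun _ => rfl
  have hS : ∑ p : V, sg o p (p + h) •
        (vecMulVec (e p) (e (p + h)) + vecMulVec (e (p + h)) (e p)) = (0 : Matrix V V ℝ) := by
    set f : V → Matrix V V ℝ := fun p => sg o p (p + h) •
        (vecMulVec (e p) (e (p + h)) + vecMulVec (e (p + h)) (e p)) with hf
    have h1 : ∀ p, f (p + h) = - f p := by
      intro p
      simp only [hf, hinv]
      rw [sg_swap o ho (hne p), neg_smul, add_comm (vecMulVec (e (p + h)) (e p))]
    have h3 := hshift f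
    simp only [h1, Finset.sum_neg_distrib] at h3
    have h4 : (2 : ℝ) • ∑ p, f p = 0 := by
      rw [two_smul]
      nth_rewrite 1 [← h3]
      exact neg_add_cancel _
    exact (smul_eq_zero.mp h4).resolve_left (by norm_num)
  simp_rw [hterm]
  rw [Finset.sum_add_distrib, ← Finset.smul_sum, ← Finset.smul_sum, hS, Finset.sum_add_distrib,
    hshift (fun p => pr (e p)), sum_pr_e, smul_zero, add_zero, ← two_smul ℝ (1 : Matrix V V ℝ),
    smul_smul]
  norm_num

/-- ordered pairs of distinct elements -/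
abbrev DD (V : Type) : Type := {a : V × V // a.1 ≠ a.2}

lemma sum_NN' (o : V → ℕ) (ho : Function.Injective o) (h2 : ∀ x : V, x + x = 0) (h : V)
    (hh : h ≠ 0) : ∑ a : DD V, (if a.1.1 + a.1.2 = h then NN o a.1 else 0) = 1 := by
  have hne : ∀ p : V, p ≠ p + h := fun p hp => hh (by simpa using hp.symm)
  rw [← sum_NN o ho h2 h hh, ← Finset.sum_filter]
  refine Finset.sum_nbij' (fun a => a.1.1) (fun p => ⟨(p, p + h), hne p⟩) ?_ ?_ ?_ ?_ ?_
  · intro a _; exact Finset.mem_univ _
  · intro p _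
    simp only [Finset.mem_filter, Finset.mem_univ, true_and]
    rw [← add_assoc, h2, zero_add]
  · intro a ha
    simp only [Finset.mem_filter, Finset.mem_univ, true_and] at ha
    apply Subtype.ext
    apply Prod.ext
    · rfl
    · show a.1.1 + h = a.1.2
      rw [← ha, ← add_assoc, h2, zero_add]
  · intro p _; rfl
  · intro a ha
    simp only [Finset.mem_filter, Finset.mem_univ, true_and] at ha
    have h3 : a.1.1 + h = a.1.2 := by rw [← ha, ← add_assoc, h2, zero_add]
    rw [h3]

variable {X : Type} [Fintype X] [DecidableEq X]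

/-- the position measurements of the colours -/
noncomputable def EE (o : V → ℕ) :
    (DD V ⊕ X) → (DD V ⊕ ({h : V // h ≠ 0} ⊕ X)) → Matrix V V ℝ
  | .inl j, .inl a => if a = j then 1 - NN o j.1 else 0
  | .inl j, .inr (.inl h) => if j.1.1 + j.1.2 = h.1 then NN o j.1 else 0
  | .inl _, .inr (.inr _) => 0
  | .inr x, .inr (.inr y) => if y = x then 1 else 0
  | .inr _, .inl _ => 0
  | .inr _, .inr (.inl _) => 0

lemma EE_symm (o : V → ℕ) (ho : Function.Injective o) (i : DD V ⊕ X)
    (w : DD V ⊕ ({h : V // h ≠ 0} ⊕ X)) : (EE o i w)ᵀ = EE o i w := by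
  rcases i with j | x <;> rcases w with a | h | y <;> simp only [EE]
  · split_ifs
    · exact (NN_good o ho j.1 j.2).compl.1
    · simp
  · split_ifs
    · exact (NN_good o ho j.1 j.2).1
    · simp
  · simp
  · simp
  · simp
  · split_ifs <;> simp

lemma EE_orth (o : V → ℕ) (ho : Function.Injective o) (i : DD V ⊕ X)
    (w w' : DD V ⊕ ({h : V // h ≠ 0} ⊕ X)) (hww : w ≠ w') : EE o i w * EE o i w' = 0 := by
  rcases i with j | x
  · have hj := NN_good o ho j.1 j.2
    rcases w with a | h | y <;> rcases w' with a' | h' | y' <;> simp only [EE]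
    · split_ifs with h1 h2
      · exact absurd (by rw [h1, h2]) hww
      all_goals simp
    · split_ifs with h1 h2
      · rw [sub_mul, one_mul, hj.2, sub_self]
      all_goals simp
    · simp
    · split_ifs with h1 h2
      · rw [mul_sub, mul_one, hj.2, sub_self]
      all_goals simp
    · split_ifs with h1 h2
      · exact absurd (by rw [Subtype.ext (h1.symm.trans h2)]) hww
      all_goals simp
    all_goals simp
  · rcases w with a | h | y <;> rcases w' with a' | h' | y' <;> simp only [EE] <;>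
      try simp
    intro h1 h2
    exact absurd (by rw [h1, h2]) hww

/-- the measurement of a vertex -/
lemma exists_pvm (o : V → ℕ) (ho : Function.Injective o) (h2 : ∀ x : V, x + x = 0)
    (A : Finset (DD V ⊕ ({h : V // h ≠ 0} ⊕ X))) (hA : 3 ≤ A.card) :
    ∃ P : (DD V ⊕ X) → Matrix V V ℝ, (∀ i, Good (P i)) ∧ ∑ i, P i = 1 ∧
      ∀ i, P i = 0 ∨ ∃ w ∈ A, P i * EE o i w = P i := by
  by_cases hX : ∃ x : X, (Sum.inr (Sum.inr x) : DD V ⊕ ({h : V // h ≠ 0} ⊕ X)) ∈ A
  · obtain ⟨x, hx⟩ := hX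
    refine ⟨fun i => if i = Sum.inr x then 1 else 0, ?_, ?_, ?_⟩
    · intro i
      show Good (if i = Sum.inr x then 1 else 0)
      split_ifs
      · exact Good.one
      · exact Good.zero
    · rw [Finset.sum_ite_eq' Finset.univ]; simp
    · intro i
      by_cases hi : i = Sum.inr x
      · right
        refine ⟨_, hx, ?_⟩
        subst hi
        simp [EE]
      · left; simp [hi]
  by_cases hZ : ∃ h : {h : V // h ≠ 0},
      (Sum.inr (Sum.inl h) : DD V ⊕ ({h : V // h ≠ 0} ⊕ X)) ∈ A
  · obtain ⟨h, hh⟩ := hZ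
    refine ⟨fun i => Sum.elim (fun a : DD V => if a.1.1 + a.1.2 = h.1 then NN o a.1 else 0)
      (fun _ => 0) i, ?_, ?_, ?_⟩
    · intro i
      rcases i with a | x
      · simp only [Sum.elim_inl]
        split_ifs
        · exact NN_good o ho a.1 a.2
        · exact Good.zero
      · exact Good.zero
    · rw [Fintype.sum_sum_type]
      simp only [Sum.elim_inl, Sum.elim_inr]
      rw [sum_NN' o ho h2 h.1 h.2]; simp
    · intro i
      rcases i with a | x
      · by_cases ha : a.1.1 + a.1.2 = h.1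
        · right
          refine ⟨_, hh, ?_⟩
          simp only [Sum.elim_inl, EE, if_pos ha]
          exact (NN_good o ho a.1 a.2).2
        · left; simp [ha]
      · left; rfl
  · have hinl : ∀ w ∈ A, ∃ a : DD V, w = Sum.inl a := by
      intro w hw
      rcases w with a | h | x
      · exact ⟨a, rfl⟩
      · exact absurd ⟨h, hw⟩ hZ
      · exact absurd ⟨x, hw⟩ hX
    obtain ⟨w1, w2, w3, hw1, hw2, hw3, h12, h13, h23⟩ := Finset.two_lt_card_iff.mp hA
    obtain ⟨a, rfl⟩ := hinl w1 hw1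
    obtain ⟨b, rfl⟩ := hinl w2 hw2
    obtain ⟨c, rfl⟩ := hinl w3 hw3
    have hab : a ≠ b := fun h => h12 (by rw [h])
    have hac : a ≠ c := fun h => h13 (by rw [h])
    have hbc : b ≠ c := fun h => h23 (by rw [h])
    obtain ⟨A', B', C', gA, gB, gC, hs, oA, oB, oC⟩ :=
      (sys_uu o ho).trip_aux a.2 b.2 c.2 (fun h => hab (Subtype.ext h))
        (fun h => hac (Subtype.ext h)) (fun h => hbc (Subtype.ext h))
    have habs : ∀ (M : Matrix V V ℝ) (j : DD V), M * pr (uu o j.1) = 0 →
        M * (1 - NN o j.1) = M := by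
      intro M j hM
      rw [mul_sub, mul_one, NN, mul_smul_comm, hM, smul_zero, sub_zero]
    refine ⟨fun i => if i = Sum.inl a then A' else if i = Sum.inl b then B' else
      if i = Sum.inl c then C' else 0, ?_, ?_, ?_⟩
    · intro i
      show Good (if i = Sum.inl a then A' else if i = Sum.inl b then B' else
        if i = Sum.inl c then C' else 0)
      split_ifs
      · exact gA
      · exact gB
      · exact gC
      · exact Good.zero
    · have hsplit : ∀ i : DD V ⊕ X, (if i = Sum.inl a then A' else if i = Sum.inl b then B' else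
          if i = Sum.inl c then C' else 0) = (if i = Sum.inl a then A' else 0)
            + (if i = Sum.inl b then B' else 0) + (if i = Sum.inl c then C' else 0) := by
        intro i
        by_cases h1 : i = Sum.inl a
        · subst h1; simp [hab, hac]
        · by_cases h3 : i = Sum.inl b
          · subst h3; simp [hab.symm, hbc]
          · simp [h1, h3]
      simp_rw [hsplit]
      rw [Finset.sum_add_distrib, Finset.sum_add_distrib, Finset.sum_ite_eq' Finset.univ,
        Finset.sum_ite_eq' Finset.univ, Finset.sum_ite_eq' Finset.univ]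
      simpa using hs
    · intro i
      by_cases h1 : i = Sum.inl a
      · right
        refine ⟨_, hw1, ?_⟩
        subst h1
        simp only [if_true, EE]
        exact habs A' a oA
      · by_cases h3 : i = Sum.inl b
        · right
          refine ⟨_, hw2, ?_⟩
          subst h3
          simp only [if_neg h1, if_true, EE]
          exact habs B' b oB
        · by_cases h4 : i = Sum.inl c
          · right
            refine ⟨_, hw3, ?_⟩
            subst h4
            simp only [if_neg h1, if_neg h3, if_true, EE]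
            exact habs C' c oC
          · left; simp [h1, h3, h4]

end group

section transfer

lemma qc_of_real {T H C : Type} [Fintype H] [DecidableEq H] [Fintype C] (G : SimpleGraph T)
    (hH : 1 ≤ Fintype.card H) (P : T → C → Matrix H H ℝ) (hP : ∀ v i, Good (P v i))
    (hs : ∀ v, ∑ i, P v i = 1) (ho : ∀ u v, G.Adj u v → ∀ i, P u i * P v i = 0) :
    QuantumColourable G (Fintype.card C) := by
  classical
  let eH := (Fintype.equivFin H).symm
  let eC := (Fintype.equivFin C).symm
  refine ⟨Fintype.card H, hH, fun v i => ((P v (eC i)).map Complex.ofRealHom).submatrix eH eH,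
    ?_, ?_, ?_, ?_⟩
  · intro v i
    ext a b
    have h1 := congrFun (congrFun (hP v (eC i)).1 (eH a)) (eH b)
    rw [transpose_apply] at h1
    simp [conjTranspose_apply, h1]
  · intro v i
    rw [submatrix_mul_equiv, ← Matrix.map_mul, (hP v (eC i)).2]
  · intro v
    ext a b
    have h1 := congrFun (congrFun (hs v) (eH a)) (eH b)
    rw [Matrix.sum_apply] at h1
    rw [Matrix.sum_apply]
    have h2 : ∑ i, ((P v (eC i)).map Complex.ofRealHom).submatrix eH eH a b
        = Complex.ofRealHom (∑ i, P v i (eH a) (eH b)) := by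
      rw [map_sum, ← Equiv.sum_comp eC]
      rfl
    rw [h2, h1, Matrix.one_apply, Matrix.one_apply]
    by_cases hab : a = b
    · simp [hab]
    · simp [hab, eH.injective.ne hab]
  · intro u v huv i
    rw [submatrix_mul_equiv, ← Matrix.map_mul, ho u v huv (eC i)]
    ext a b; simp

end transfer

lemma card_DD (V : Type) [Fintype V] [DecidableEq V] :
    Fintype.card (DD V) = Fintype.card V * Fintype.card V - Fintype.card V := by
  rw [Fintype.card_subtype]
  have h : (univ.filter (fun a : V × V => a.1 ≠ a.2)) = (univ : Finset V).offDiag := by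
    ext a; simp [Finset.mem_offDiag]
  rw [h, Finset.offDiag_card]; rfl

/-- The quantum upper bound: `χ_q(K(n,k)) ≤ n - (2^m - 1)` when `k ≥ 3` and `n ≥ 4^m - 1`. -/
theorem quantum_upper (m n k : ℕ) (hk : 3 ≤ k) (hn : 4 ^ m ≤ n + 1) :
    QuantumColourable (kneser n k) (n - (2 ^ m - 1)) := by
  classical
  let V : Type := Fin m → ZMod 2
  let X : Type := Fin (n - (4 ^ m - 1))
  have hV : Fintype.card V = 2 ^ m := by simp [V, Fintype.card_pi]
  have hX : Fintype.card X = n - (4 ^ m - 1) := by simp [X]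
  have h4 : (4 : ℕ) ^ m = 2 ^ m * 2 ^ m := by
    rw [← mul_pow]; norm_num
  have hpos : 1 ≤ 2 ^ m := Nat.one_le_two_pow
  have hD : Fintype.card (DD V) = 2 ^ m * 2 ^ m - 2 ^ m := by rw [card_DD, hV]
  have hZ : Fintype.card {h : V // h ≠ 0} = 2 ^ m - 1 := by
    rw [Fintype.card_subtype_compl, hV]; simp
  have hle : 2 ^ m ≤ 2 ^ m * 2 ^ m := Nat.le_mul_of_pos_left _ (by omega)
  have hW : Fintype.card (Fin n) = Fintype.card (DD V ⊕ ({h : V // h ≠ 0} ⊕ X)) := by
    rw [Fintype.card_sum, Fintype.card_sum, hD, hZ, hX, Fintype.card_fin]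
    omega
  have hC : Fintype.card (DD V ⊕ X) = n - (2 ^ m - 1) := by
    rw [Fintype.card_sum, hD, hX]
    omega
  let eW : Fin n ≃ (DD V ⊕ ({h : V // h ≠ 0} ⊕ X)) := Fintype.equivOfCardEq hW
  let o : V → ℕ := fun v => (Fintype.equivFin V v : ℕ)
  have ho : Function.Injective o := fun a b h =>
    (Fintype.equivFin V).injective (Fin.ext h)
  have h2 : ∀ x : V, x + x = 0 := by
    intro x; funext i
    have : ∀ a : ZMod 2, a + a = 0 := by decide
    exact this (x i)
  have hex : ∀ v : {s : Finset (Fin n) // s.card = k},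
      ∃ P : (DD V ⊕ X) → Matrix V V ℝ, (∀ i, Good (P i)) ∧ ∑ i, P i = 1 ∧
      ∀ i, P i = 0 ∨ ∃ w ∈ v.1.map eW.toEmbedding, P i * EE o i w = P i := by
    intro v
    apply exists_pvm o ho h2
    rw [Finset.card_map, v.2]; exact hk
  choose P hP hs hE using hex
  rw [← hC]
  refine qc_of_real (H := V) (C := DD V ⊕ X) (kneser n k) (by rw [hV]; exact hpos) P hP hs ?_
  intro u v huv i
  rcases hE u i with h | ⟨w, hw, hwP⟩
  · rw [h, zero_mul]
  rcases hE v i with h | ⟨w', hw', hwP'⟩
  · rw [h, mul_zero]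
  have hne : w ≠ w' := by
    rintro rfl
    rw [Finset.mem_map_equiv] at hw hw'
    exact (Finset.disjoint_left.mp huv.2) hw hw'
  have h3 : P v i = EE o i w' * P v i := by
    have h4 := congrArg Matrix.transpose hwP'
    rw [transpose_mul, EE_symm o ho, (hP v i).1] at h4
    exact h4.symm
  calc P u i * P v i = (P u i * EE o i w) * (EE o i w' * P v i) := by rw [hwP, ← h3]
    _ = P u i * (EE o i w * EE o i w') * P v i := by noncomm_ring
    _ = 0 := by rw [EE_orth o ho i w w' hne, mul_zero, zero_mul]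

lemma chiQ_le (m n k : ℕ) (hk : 3 ≤ k) (hn : 4 ^ m ≤ n + 1) :
    chiQ (kneser n k) ≤ n - (2 ^ m - 1) :=
  Nat.sInf_le (quantum_upper m n k hk hn)

/-- An explicit example. -/
theorem example_255 :
    chiQ (kneser 255 3) ≤ 240 ∧ 241 ≤ (kneser 255 3).chromaticNumber := by
  constructor
  · have h := chiQ_le 4 255 3 le_rfl (by norm_num)
    norm_num at h
    exact h
  · have h := chromatic_lower 255 3 15 (by norm_num) (by norm_num) (by norm_num) (by norm_num)
    norm_num at h
    exact h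

/-- The answer to Q1 is negative: the quantum chromatic number of the Kneser graph is in general
smaller than its chromatic number; in fact for every `k ≥ 3` the difference
`χ(K(n,k)) - χ_q(K(n,k))` tends to infinity with `n`. -/
theorem result :
    (¬ ∀ n k : ℕ, 1 ≤ k → 2 * k ≤ n →
      (chiQ (kneser n k) : ℕ∞) = (kneser n k).chromaticNumber) ∧
    (∀ k : ℕ, 3 ≤ k → ∀ g : ℕ, ∃ n₀ : ℕ, ∀ n : ℕ, n₀ ≤ n →
      (chiQ (kneser n k) : ℕ∞) + g ≤ (kneser n k).chromaticNumber) := by
  refine ⟨?_, ?_⟩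
  · intro h
    have hex := example_255
    rw [← h 255 3 (by norm_num) (by norm_num)] at hex
    have h2 : (241 : ℕ) ≤ chiQ (kneser 255 3) := by exact_mod_cast hex.2
    omega
  · intro k hk g
    set K := k ^ 3 * (k - 1) with hK
    have hk1 : 1 ≤ k - 1 := by omega
    have hkK : k ≤ K := by
      calc k = k * 1 := by ring
        _ ≤ k ^ 3 * (k - 1) := Nat.mul_le_mul (Nat.le_self_pow (by norm_num) k) hk1
    have hKg : (K + 1) ^ 2 < 4 * K * K := by nlinarith
    refine ⟨4 ^ (K + g), fun n hn => ?_⟩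
    have h1 := chiQ_le (K + g) n k hk (by omega)
    have hpow : K + g < 2 ^ (K + g) := Nat.lt_two_pow_self
    have h24 : 2 ^ (K + g) ≤ 4 ^ (K + g) := Nat.pow_le_pow_left (by norm_num) _
    have h3 := chromatic_lower n k K (by omega) hkK hKg (by omega)
    refine le_trans ?_ h3
    have h5 : chiQ (kneser n k) + g ≤ n - K + 1 := by omega
    exact_mod_cast h5

end Pool.Agent.Results.MP_fbcaa5_co.KneserGap
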