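import Mathlib

set_option autoImplicit false

namespace Pool.Agent.Results.MP_fbcaa5_co.KneserTwoKPlusTwo

open Matrix Finset

/-- The Kneser graph `K(n,k)`: its vertices are the `k`-element subsets of `Fin n`, two distinct
vertices being adjacent when they are disjoint. -/
def kneser (n k : ℕ) : SimpleGraph {s : Finset (Fin n) // s.card = k} where
  Adj s t := s ≠ t ∧ Disjoint s.1 t.1
  symm := ⟨fun _ _ h => ⟨h.1.symm, h.2.symm⟩⟩
  loopless := ⟨fun _ h => h.1 rfl⟩

/-- `P` is a quantum `c`-colouring of `G` in dimension `d`: every `P v i` is an orthogonal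
projection of `ℂ^d`, the projections at a vertex sum to the identity, and at the two ends of an
edge the projections of one colour multiply to zero. -/
structure IsQuantumColouring {V : Type} (G : SimpleGraph V) (c d : ℕ)
    (P : V → Fin c → Matrix (Fin d) (Fin d) ℂ) : Prop where
  herm : ∀ v i, (P v i)ᴴ = P v i
  idem : ∀ v i, P v i * P v i = P v i
  sum_one : ∀ v, ∑ i, P v i = 1
  orth : ∀ u v, G.Adj u v → ∀ i, P u i * P v i = 0

/-- `G` has a quantum `c`-colouring in some finite dimension `d ≥ 1`. -/
def QuantumColourable {V : Type} (G : SimpleGraph V) (c : ℕ) : Prop :=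
  ∃ d : ℕ, 1 ≤ d ∧ ∃ P : V → Fin c → Matrix (Fin d) (Fin d) ℂ, IsQuantumColouring G c d P

/-- The quantum chromatic number: the least `c` such that `G` has a quantum `c`-colouring in
some finite dimension. -/
noncomputable def chiQ {V : Type} (G : SimpleGraph V) : ℕ :=
  sInf {c : ℕ | QuantumColourable G c}

/-! ### Three-outcome measurements -/

/-- A three-outcome projective measurement. -/
structure IsPVM {d : ℕ} (a : Fin 3 → Matrix (Fin d) (Fin d) ℂ) : Prop where
  herm : ∀ i, (a i)ᴴ = a i
  idem : ∀ i, a i * a i = a i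
  sum_one : a 0 + a 1 + a 2 = 1

section PVM

variable {d : ℕ} {a b a' b' : Fin 3 → Matrix (Fin d) (Fin d) ℂ}

open ComplexOrder in
lemma psd_add_zero (X Y : Matrix (Fin d) (Fin d) ℂ) (h : Xᴴ * X + Yᴴ * Y = 0) : X = 0 := by
  have h1 : (Xᴴ * X).trace + (Yᴴ * Y).trace = 0 := by rw [← Matrix.trace_add, h, Matrix.trace_zero]
  have h2 : 0 ≤ (Xᴴ * X).trace := (Matrix.posSemidef_conjTranspose_mul_self X).trace_nonneg
  have h3 : 0 ≤ (Yᴴ * Y).trace := (Matrix.posSemidef_conjTranspose_mul_self Y).trace_nonneg
  have h4 : (Xᴴ * X).trace = 0 := by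
    have : (Xᴴ * X).trace = - (Yᴴ * Y).trace := by linear_combination h1
    exact le_antisymm (by rw [this]; simpa using h3) h2
  exact Matrix.trace_conjTranspose_mul_self_eq_zero_iff.mp h4

lemma pvm_orth_aux (p q r : Matrix (Fin d) (Fin d) ℂ) (hp : pᴴ = p) (hq : qᴴ = q) (hr : rᴴ = r)
    (pp : p * p = p) (qq : q * q = q) (rr : r * r = r) (hs : p + q + r = 1) : q * p = 0 := by
  apply psd_add_zero (q * p) (r * p)
  rw [Matrix.conjTranspose_mul, Matrix.conjTranspose_mul, hp, hq, hr]
  have e1 : p * q * (q * p) = p * q * p := by rw [← mul_assoc, mul_assoc p q q, qq]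
  have e2 : p * r * (r * p) = p * r * p := by rw [← mul_assoc, mul_assoc p r r, rr]
  rw [e1, e2]
  have e3 : p * (p + q + r) * p = p := by rw [hs, mul_one, pp]
  have e4 : p * (p + q + r) * p = p + (p * q * p + p * r * p) := by
    rw [mul_add, mul_add, add_mul, add_mul, pp, pp, add_assoc]
  rw [e4] at e3
  simpa using e3

lemma IsPVM.orth (ha : IsPVM a) : ∀ i j, i ≠ j → a i * a j = 0 := by
  have H := fun (x y z : Fin 3) (h : a x + a y + a z = 1) =>
    pvm_orth_aux (a x) (a y) (a z) (ha.herm x) (ha.herm y) (ha.herm z) (ha.idem x) (ha.idem y)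
      (ha.idem z) h
  have s := ha.sum_one
  have h10 : a 1 * a 0 = 0 := H 0 1 2 s
  have h20 : a 2 * a 0 = 0 := H 0 2 1 (by rw [← s]; abel)
  have h01 : a 0 * a 1 = 0 := H 1 0 2 (by rw [← s]; abel)
  have h21 : a 2 * a 1 = 0 := H 1 2 0 (by rw [← s]; abel)
  have h02 : a 0 * a 2 = 0 := H 2 0 1 (by rw [← s]; abel)
  have h12 : a 1 * a 2 = 0 := H 2 1 0 (by rw [← s]; abel)
  intro i j hij
  fin_cases i <;> fin_cases j <;> first | exact absurd rfl hij | assumption

lemma IsPVM.mul (ha : IsPVM a) (i j : Fin 3) : a i * a j = if i = j then a i else 0 := by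
  split_ifs with h
  · rw [h, ha.idem]
  · exact ha.orth i j h

/-- The transport along an edge. -/
noncomputable def G (u v : ℂ) (a b : Fin 3 → Matrix (Fin d) (Fin d) ℂ) :
    Matrix (Fin d) (Fin d) ℂ :=
  u • (a 0 * b 1 + a 1 * b 2 + a 2 * b 0) + v • (a 0 * b 2 + a 1 * b 0 + a 2 * b 1)

/-- The transport along a path of length two. -/
noncomputable def H (u v : ℂ) (a b : Fin 3 → Matrix (Fin d) (Fin d) ℂ) :
    Matrix (Fin d) (Fin d) ℂ :=
  (a 0 * b 0 + a 1 * b 1 + a 2 * b 2)
    + (u * u) • (a 0 * b 2 + a 1 * b 0 + a 2 * b 1)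
    + (v * v) • (a 0 * b 1 + a 1 * b 2 + a 2 * b 0)

lemma mid_drop (hb : IsPVM b) (i j l : Fin 3) (h : ∀ m : Fin 3, m = i ∨ m = j ∨ m = l)
    (hij : i ≠ j) (hil : i ≠ l) (hjl : j ≠ l)
    (hi : a i * b i = 0) (hj : b j * a' j = 0) : a i * b l * a' j = a i * a' j := by
  have hs : b i + b j + b l = 1 := by
    rw [← hb.sum_one]
    revert h hij hil hjl
    fin_cases i <;> fin_cases j <;> fin_cases l <;> simp <;> intros <;> abel
  calc a i * b l * a' j = a i * (b i + b j + b l) * a' j
        - a i * b i * a' j - a i * (b j * a' j) := by noncomm_ring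
    _ = a i * a' j := by rw [hs, hi, hj]; simp

lemma pp (hb : IsPVM b) (i j l m : Fin 3) :
    (a i * b j) * (b l * a' m) = if j = l then a i * b j * a' m else 0 := by
  have : (a i * b j) * (b l * a' m) = a i * (b j * b l) * a' m := by noncomm_ring
  rw [this, hb.mul]
  split_ifs <;> simp

lemma G_mul_G (u v : ℂ) (huv : u * v = 1) (hb : IsPVM b)
    (h1 : ∀ i, a i * b i = 0) (h2 : ∀ i, b i * a' i = 0) :
    G u v a b * G u v b a' = H u v a a' := by
  have m021 := mid_drop (a := a) (a' := a') hb 0 2 1 (by decide) (by decide) (by decide)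
    (by decide) (h1 0) (h2 2)
  have m102 := mid_drop (a := a) (a' := a') hb 1 0 2 (by decide) (by decide) (by decide)
    (by decide) (h1 1) (h2 0)
  have m210 := mid_drop (a := a) (a' := a') hb 2 1 0 (by decide) (by decide) (by decide)
    (by decide) (h1 2) (h2 1)
  have m012 := mid_drop (a := a) (a' := a') hb 0 1 2 (by decide) (by decide) (by decide)
    (by decide) (h1 0) (h2 1)
  have m120 := mid_drop (a := a) (a' := a') hb 1 2 0 (by decide) (by decide) (by decide)
    (by decide) (h1 1) (h2 2)
  have m201 := mid_drop (a := a) (a' := a') hb 2 0 1 (by decide) (by decide) (by decide)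
    (by decide) (h1 2) (h2 0)
  have hEE : (a 0 * b 1 + a 1 * b 2 + a 2 * b 0) * (b 0 * a' 1 + b 1 * a' 2 + b 2 * a' 0)
      = a 0 * a' 2 + a 1 * a' 0 + a 2 * a' 1 := by
    simp only [mul_add, add_mul, pp hb]
    simp [m021, m102, m210]
    try abel
  have hFF : (a 0 * b 2 + a 1 * b 0 + a 2 * b 1) * (b 0 * a' 2 + b 1 * a' 0 + b 2 * a' 1)
      = a 0 * a' 1 + a 1 * a' 2 + a 2 * a' 0 := by
    simp only [mul_add, add_mul, pp hb]
    simp [m012, m120, m201]
    try abel
  have hX : (a 0 * b 1 + a 1 * b 2 + a 2 * b 0) * (b 0 * a' 2 + b 1 * a' 0 + b 2 * a' 1)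
      + (a 0 * b 2 + a 1 * b 0 + a 2 * b 1) * (b 0 * a' 1 + b 1 * a' 2 + b 2 * a' 0)
      = a 0 * a' 0 + a 1 * a' 1 + a 2 * a' 2 := by
    have e0 : a 0 * a' 0 = a 0 * b 1 * a' 0 + a 0 * b 2 * a' 0 := by
      calc a 0 * a' 0 = a 0 * (b 0 + b 1 + b 2) * a' 0 := by rw [hb.sum_one, mul_one]
        _ = a 0 * b 0 * a' 0 + (a 0 * b 1 * a' 0 + a 0 * b 2 * a' 0) := by noncomm_ring
        _ = _ := by rw [h1 0]; simp
    have e1 : a 1 * a' 1 = a 1 * b 2 * a' 1 + a 1 * b 0 * a' 1 := by
      calc a 1 * a' 1 = a 1 * (b 0 + b 1 + b 2) * a' 1 := by rw [hb.sum_one, mul_one]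
        _ = a 1 * b 1 * a' 1 + (a 1 * b 2 * a' 1 + a 1 * b 0 * a' 1) := by noncomm_ring
        _ = _ := by rw [h1 1]; simp
    have e2 : a 2 * a' 2 = a 2 * b 0 * a' 2 + a 2 * b 1 * a' 2 := by
      calc a 2 * a' 2 = a 2 * (b 0 + b 1 + b 2) * a' 2 := by rw [hb.sum_one, mul_one]
        _ = a 2 * b 2 * a' 2 + (a 2 * b 0 * a' 2 + a 2 * b 1 * a' 2) := by noncomm_ring
        _ = _ := by rw [h1 2]; simp
    rw [e0, e1, e2]
    simp only [mul_add, add_mul, pp hb]
    simp
    abel
  unfold G H
  set E := a 0 * b 1 + a 1 * b 2 + a 2 * b 0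
  set F := a 0 * b 2 + a 1 * b 0 + a 2 * b 1
  set E' := b 0 * a' 1 + b 1 * a' 2 + b 2 * a' 0
  set F' := b 0 * a' 2 + b 1 * a' 0 + b 2 * a' 1
  rw [← hEE, ← hFF, ← hX]
  have hvu : v * u = 1 := by rw [mul_comm]; exact huv
  simp only [mul_add, add_mul, smul_mul_assoc, mul_smul_comm, smul_add, smul_smul, huv, hvu,
    one_smul]
  abel

/-- Transport along an edge and back is trivial. -/
lemma H_self (u v : ℂ) (ha : IsPVM a) : H u v a a = 1 := by
  unfold H
  simp [ha.mul, ha.sum_one]

lemma G_mul_G_symm (u v : ℂ) (huv : u * v = 1) (ha : IsPVM a) (hb : IsPVM b)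
    (h1 : ∀ i, a i * b i = 0) (h2 : ∀ i, b i * a i = 0) :
    G u v a b * G u v b a = 1 := by
  rw [G_mul_G u v huv hb h1 h2, H_self u v ha]

lemma G_one (ha : IsPVM a) (hb : IsPVM b) (h1 : ∀ i, a i * b i = 0) : G 1 1 a b = 1 := by
  have : (a 0 + a 1 + a 2) * (b 0 + b 1 + b 2) = 1 := by rw [ha.sum_one, hb.sum_one, mul_one]
  unfold G
  rw [one_smul, one_smul, ← this]
  simp only [mul_add, add_mul, h1]
  abel

lemma G_neg_one (ha : IsPVM a) (hb : IsPVM b) (h1 : ∀ i, a i * b i = 0) :
    G (-1) (-1) a b = -1 := by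
  rw [← G_one ha hb h1]
  unfold G
  simp only [neg_smul, one_smul]
  abel

end PVM

/-! ### The vertices used in the argument -/

/-- The ground set with `2k+2` elements: `k` pairs and two further points. -/
abbrev W (k : ℕ) := (Fin k × Bool) ⊕ Bool

/-- A `k`-set choosing one element of every pair, or a further point instead. -/
def D {k : ℕ} (f : Fin k → Bool) (s : Fin k → Option Bool) : Fin k → W k :=
  fun l => match s l with
    | some e => Sum.inr e
    | none => Sum.inl (l, f l)

lemma D_injective {k : ℕ} (f : Fin k → Bool) (s : Fin k → Option Bool)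
    (hs : ∀ l l' e, s l = some e → s l' = some e → l = l') : Function.Injective (D f s) := by
  intro l l' h
  unfold D at h
  cases h1 : s l with
  | none =>
    cases h2 : s l' with
    | none => simp [h1, h2] at h; exact h.1
    | some e => simp [h1, h2] at h
  | some e =>
    cases h2 : s l' with
    | none => simp [h1, h2] at h
    | some e' =>
      simp [h1, h2] at h
      subst h
      exact hs l l' e h1 h2

lemma D_disjoint {k : ℕ} (f f' : Fin k → Bool) (s s' : Fin k → Option Bool)
    (h1 : ∀ l, s l = none → s' l = none → f l ≠ f' l)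
    (h2 : ∀ l l' e, s l = some e → s' l' = some e → False) :
    Disjoint (univ.image (D f s)) (univ.image (D f' s')) := by
  rw [Finset.disjoint_left]
  intro x hx hx'
  simp only [mem_image, mem_univ, true_and] at hx hx'
  obtain ⟨l, rfl⟩ := hx
  obtain ⟨l', hl'⟩ := hx'
  unfold D at hl'
  cases h3 : s l with
  | none =>
    cases h4 : s' l' with
    | none =>
      simp [h3, h4] at hl'
      obtain ⟨rfl, h⟩ := hl'
      exact h1 l' h3 h4 h.symm
    | some e => simp [h3, h4] at hl'
  | some e =>
    cases h4 : s' l' with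
    | none => simp [h3, h4] at hl'
    | some e' =>
      simp [h3, h4] at hl'
      subst hl'
      exact h2 l l' _ h3 h4

/-- The `k`-set taking the second element of the pairs with index in `I`, the first otherwise. -/
def S (k : ℕ) (I : Finset ℕ) : Finset (W k) :=
  univ.image (D (fun l : Fin k => decide ((l : ℕ) ∈ I)) (fun _ => none))

/-- Opposite choices to `I`, except that pair `j` is replaced by the further point `e`. -/
def Z (k : ℕ) (e : Bool) (I : Finset ℕ) (j : ℕ) : Finset (W k) :=
  univ.image (D (fun l : Fin k => !decide ((l : ℕ) ∈ I))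
    (fun l => if (l : ℕ) = j then some e else none))

/-- Opposite choices to `I`, except that pairs `i`, `j` are replaced by the further points. -/
def C (k : ℕ) (I : Finset ℕ) (i j : ℕ) : Finset (W k) :=
  univ.image (D (fun l : Fin k => !decide ((l : ℕ) ∈ I))
    (fun l => if (l : ℕ) = i then some false else if (l : ℕ) = j then some true else none))

lemma S_card (k : ℕ) (I : Finset ℕ) : (S k I).card = k := by
  unfold S
  rw [card_image_of_injective _ (D_injective _ _ (by simp)), card_univ, Fintype.card_fin]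

lemma Z_card (k : ℕ) (e : Bool) (I : Finset ℕ) (j : ℕ) : (Z k e I j).card = k := by
  unfold Z
  rw [card_image_of_injective _ (D_injective _ _ _), card_univ, Fintype.card_fin]
  intro l l' e h1 h2
  simp at h1 h2
  exact Fin.ext (h1.1.trans h2.1.symm)

lemma C_card (k : ℕ) (I : Finset ℕ) (i j : ℕ) : (C k I i j).card = k := by
  unfold C
  rw [card_image_of_injective _ (D_injective _ _ _), card_univ, Fintype.card_fin]
  intro l l' e h1 h2
  apply Fin.ext
  split_ifs at h1 h2 <;> simp_all

lemma disj_S_S (k : ℕ) (I J : Finset ℕ) (h : ∀ l < k, (l ∈ I ↔ l ∉ J)) :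
    Disjoint (S k I) (S k J) := by
  apply D_disjoint
  · intro l _ _
    have := h l l.2
    by_cases h1 : (l : ℕ) ∈ J <;> simp_all
  · intro l l' e h1; simp at h1

lemma disj_Z_S (k : ℕ) (e : Bool) (I J : Finset ℕ) (j : ℕ)
    (h : ∀ l < k, l ≠ j → (l ∈ I ↔ l ∈ J)) : Disjoint (Z k e I j) (S k J) := by
  apply D_disjoint
  · intro l h1 _
    have h2 : (l : ℕ) ≠ j := by
      intro hc; simp [hc] at h1
    have := h l l.2 h2
    by_cases h3 : (l : ℕ) ∈ J <;> simp_all
  · intro l l' e _ h1; simp at h1

lemma disj_C_S (k : ℕ) (I J : Finset ℕ) (i j : ℕ)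
    (h : ∀ l < k, l ≠ i → l ≠ j → (l ∈ I ↔ l ∈ J)) : Disjoint (C k I i j) (S k J) := by
  apply D_disjoint
  · intro l h1 _
    have h2 : (l : ℕ) ≠ i := by
      intro hc; simp [hc] at h1
    have h2' : (l : ℕ) ≠ j := by
      intro hc
      simp only [hc] at h1
      split_ifs at h1
    have := h l l.2 h2 h2'
    by_cases h3 : (l : ℕ) ∈ J <;> simp_all
  · intro l l' e _ h1; simp at h1

lemma disj_Z_Z (k : ℕ) (I J : Finset ℕ) (j : ℕ)
    (h : ∀ l < k, l ≠ j → (l ∈ I ↔ l ∉ J)) : Disjoint (Z k false I j) (Z k true J j) := by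
  apply D_disjoint
  · intro l h1 _
    have h2 : (l : ℕ) ≠ j := by
      intro hc; simp [hc] at h1
    have := h l l.2 h2
    by_cases h3 : (l : ℕ) ∈ J <;> simp_all
  · intro l l' e h1 h2
    split_ifs at h1 h2
    simp at h1 h2
    rw [h1] at h2
    exact absurd h2 (by decide)

/-! ### The argument -/

section core

variable {d k : ℕ} (P : Finset (W k) → Fin 3 → Matrix (Fin d) (Fin d) ℂ)

/-- Forward transport from `S J` to `S (insert m J)`. -/
noncomputable def hf (u v : ℂ) (J : Finset ℕ) (m : ℕ) : Matrix (Fin d) (Fin d) ℂ :=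
  H u v (P (S k J)) (P (S k (insert m J)))

/-- Backward transport from `S (insert m J)` to `S J`. -/
noncomputable def hb (u v : ℂ) (J : Finset ℕ) (m : ℕ) : Matrix (Fin d) (Fin d) ℂ :=
  H u v (P (S k (insert m J))) (P (S k J))

/-- Transport from `S ∅` to `S (I ∩ [0,m))`. -/
noncomputable def Tf (u v : ℂ) : ℕ → Finset ℕ → Matrix (Fin d) (Fin d) ℂ
  | 0, _ => 1
  | m + 1, I => if m ∈ I then Tf u v m I * hf P u v (I.filter (· < m)) m else Tf u v m I

/-- Transport from `S (I ∩ [0,m))` to `S ∅`. -/
noncomputable def Tb (u v : ℂ) : ℕ → Finset ℕ → Matrix (Fin d) (Fin d) ℂ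
  | 0, _ => 1
  | m + 1, I => if m ∈ I then hb P u v (I.filter (· < m)) m * Tb u v m I else Tb u v m I

variable (hP : ∀ s, s.card = k → IsPVM (P s))
  (hadj : ∀ s t : Finset (W k), s.card = k → t.card = k → Disjoint s t → ∀ i, P s i * P t i = 0)

include hP hadj in
lemma GG (u v : ℂ) (huv : u * v = 1) (s t w : Finset (W k)) (hs : s.card = k) (ht : t.card = k)
    (hw : w.card = k) (h1 : Disjoint s t) (h2 : Disjoint t w) :
    G u v (P s) (P t) * G u v (P t) (P w) = H u v (P s) (P w) :=
  G_mul_G u v huv (hP t ht) (hadj s t hs ht h1) (hadj t w ht hw h2)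

include hP hadj in
/-- Two steps through a common neighbour, then two more through the same common neighbour. -/
lemma HH (u v : ℂ) (huv : u * v = 1) (s t w c : Finset (W k)) (hs : s.card = k)
    (ht : t.card = k) (hw : w.card = k) (hc : c.card = k)
    (h1 : Disjoint c s) (h2 : Disjoint c t) (h3 : Disjoint c w) :
    H u v (P s) (P t) * H u v (P t) (P w) = H u v (P s) (P w) := by
  rw [← GG P hP hadj u v huv s c t hs hc ht h1.symm h2,
    ← GG P hP hadj u v huv t c w ht hc hw h2.symm h3,
    ← GG P hP hadj u v huv s c w hs hc hw h1.symm h3]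
  have e : G u v (P c) (P t) * G u v (P t) (P c) = 1 := by
    rw [GG P hP hadj u v huv c t c hc ht hc h2 h2.symm, H_self u v (hP c hc)]
  calc G u v (P s) (P c) * G u v (P c) (P t) * (G u v (P t) (P c) * G u v (P c) (P w))
      = G u v (P s) (P c) * (G u v (P c) (P t) * G u v (P t) (P c)) * G u v (P c) (P w) := by
        noncomm_ring
    _ = _ := by rw [e, mul_one]

include hP hadj in
lemma hf_hf (u v : ℂ) (huv : u * v = 1) (J : Finset ℕ) (i j : ℕ) :
    hf P u v J i * hf P u v (insert i J) j = hf P u v J j * hf P u v (insert j J) i := by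
  have c1 : Disjoint (C k J i j) (S k J) := disj_C_S k J J i j (by simp)
  have c2 : Disjoint (C k J i j) (S k (insert i J)) :=
    disj_C_S k J _ i j (by intro l _ h1 h2; simp [h1])
  have c3 : Disjoint (C k J i j) (S k (insert j J)) :=
    disj_C_S k J _ i j (by intro l _ h1 h2; simp [h2])
  have c4 : Disjoint (C k J i j) (S k (insert j (insert i J))) :=
    disj_C_S k J _ i j (by intro l _ h1 h2; simp [h1, h2])
  unfold hf
  rw [HH P hP hadj u v huv _ _ _ (C k J i j) (S_card _ _) (S_card _ _) (S_card _ _)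
    (C_card _ _ _ _) c1 c2 c4]
  rw [Finset.insert_comm i j J]
  rw [HH P hP hadj u v huv _ _ _ (C k J i j) (S_card _ _) (S_card _ _) (S_card _ _)
    (C_card _ _ _ _) c1 c3 c4]

include hP hadj in
lemma hf_hb (u v : ℂ) (huv : u * v = 1) (J : Finset ℕ) (j : ℕ) :
    hf P u v J j * hb P u v J j = 1 := by
  have c1 : Disjoint (C k J j j) (S k J) := disj_C_S k J J j j (by simp)
  have c2 : Disjoint (C k J j j) (S k (insert j J)) :=
    disj_C_S k J _ j j (by intro l _ h1 h2; simp [h1])
  unfold hf hb
  rw [HH P hP hadj u v huv _ _ _ (C k J j j) (S_card _ _) (S_card _ _) (S_card _ _)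
    (C_card _ _ _ _) c1 c2 c1, H_self u v (hP _ (S_card _ _))]

include hP hadj in
lemma Tf_Tb (u v : ℂ) (huv : u * v = 1) (m : ℕ) (I : Finset ℕ) :
    Tf P u v m I * Tb P u v m I = 1 := by
  induction m with
  | zero => simp [Tf, Tb]
  | succ m ih =>
    unfold Tf Tb
    split_ifs with h
    · calc Tf P u v m I * hf P u v (I.filter (· < m)) m *
            (hb P u v (I.filter (· < m)) m * Tb P u v m I)
          = Tf P u v m I * (hf P u v (I.filter (· < m)) m * hb P u v (I.filter (· < m)) m) *
            Tb P u v m I := by noncomm_ring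
        _ = 1 := by rw [hf_hb P hP hadj u v huv, mul_one, ih]
    · exact ih

/-- `Tf` only depends on the elements below `m`. -/
lemma Tf_congr (u v : ℂ) (m : ℕ) (I J : Finset ℕ) (h : ∀ l < m, (l ∈ I ↔ l ∈ J)) :
    Tf P u v m I = Tf P u v m J := by
  induction m with
  | zero => simp [Tf]
  | succ m ih =>
    have h1 := ih (fun l hl => h l (by omega))
    have h2 : I.filter (· < m) = J.filter (· < m) := by
      ext l
      simp only [mem_filter]
      constructor
      · rintro ⟨a, b⟩; exact ⟨(h l (by omega)).1 a, b⟩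
      · rintro ⟨a, b⟩; exact ⟨(h l (by omega)).2 a, b⟩
    unfold Tf
    rw [h1, h2]
    have h3 := h m (by omega)
    by_cases h4 : m ∈ I
    · rw [if_pos h4, if_pos (h3.1 h4)]
    · rw [if_neg h4, if_neg (fun h5 => h4 (h3.2 h5))]

include hP hadj in
lemma Tf_insert (u v : ℂ) (huv : u * v = 1) (m : ℕ) : ∀ (I : Finset ℕ) (j : ℕ), j < m → j ∉ I →
    Tf P u v m I * hf P u v (I.filter (· < m)) j = Tf P u v m (insert j I) := by
  induction m with
  | zero => intro I j hj; omega
  | succ m ih =>
    intro I j hj hjI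
    rcases Nat.lt_succ_iff_lt_or_eq.mp hj with hj | rfl
    · -- j < m
      by_cases hm : m ∈ I
      · have f1 : I.filter (· < m + 1) = insert m (I.filter (· < m)) := by
          ext l
          simp only [mem_filter, mem_insert]
          constructor
          · rintro ⟨a, b⟩
            rcases Nat.lt_succ_iff_lt_or_eq.mp b with b | b
            · exact Or.inr ⟨a, b⟩
            · exact Or.inl b
          · rintro (a | ⟨a, b⟩)
            · subst a; exact ⟨hm, by omega⟩
            · exact ⟨a, by omega⟩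
        have f2 : (insert j I).filter (· < m) = insert j (I.filter (· < m)) := by
          rw [Finset.filter_insert, if_pos hj]
        unfold Tf
        rw [if_pos hm, if_pos (by simp [hm]), f1, f2, mul_assoc,
          hf_hf P hP hadj u v huv _ m j, ← mul_assoc, ih I j hj hjI]
      · have f1 : I.filter (· < m + 1) = I.filter (· < m) := by
          ext l
          simp only [mem_filter]
          constructor
          · rintro ⟨a, b⟩
            refine ⟨a, ?_⟩
            rcases Nat.lt_succ_iff_lt_or_eq.mp b with b | b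
            · exact b
            · subst b; exact absurd a hm
          · rintro ⟨a, b⟩; exact ⟨a, by omega⟩
        unfold Tf
        rw [if_neg hm, if_neg (by simp only [mem_insert, not_or]; exact ⟨by omega, hm⟩), f1,
          ih I j hj hjI]
    · have f1 : I.filter (· < j + 1) = I.filter (· < j) := by
        ext l
        simp only [mem_filter]
        constructor
        · rintro ⟨a, b⟩
          refine ⟨a, ?_⟩
          rcases Nat.lt_succ_iff_lt_or_eq.mp b with b | b
          · exact b
          · subst b; exact absurd a hjI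
        · rintro ⟨a, b⟩; exact ⟨a, by omega⟩
      have f2 : (insert j I).filter (· < j) = I.filter (· < j) := by
        rw [Finset.filter_insert, if_neg (by omega)]
      have f3 : Tf P u v j I = Tf P u v j (insert j I) :=
        Tf_congr P u v j _ _ (by
          intro l hl
          have : l ≠ j := by omega
          simp [mem_insert, this])
      unfold Tf
      rw [if_neg hjI, if_pos (mem_insert_self j I), f1, f2, f3]

include hP hadj in
/-- The ladder relation. -/
lemma ladder (u v : ℂ) (huv : u * v = 1) (I J : Finset ℕ) (j : ℕ) (hj : j < k) (hI : j ∉ I)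
    (hJ : j ∉ J) (hIJ : ∀ l < k, l ≠ j → (l ∈ I ↔ l ∉ J)) :
    hf P u v I j * G u v (P (S k (insert j I))) (P (S k J))
      = G u v (P (S k I)) (P (S k (insert j J))) * hb P u v J j := by
  have gg := GG P hP hadj u v huv
  -- the common neighbours
  have z1 : Disjoint (Z k false I j) (S k I) := disj_Z_S k false I I j (by simp)
  have z2 : Disjoint (Z k false I j) (S k (insert j I)) :=
    disj_Z_S k false I _ j (by intro l _ h; simp [h])
  have w1 : Disjoint (Z k true J j) (S k J) := disj_Z_S k true J J j (by simp)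
  have w2 : Disjoint (Z k true J j) (S k (insert j J)) :=
    disj_Z_S k true J _ j (by intro l _ h; simp [h])
  have zw : Disjoint (Z k false I j) (Z k true J j) := disj_Z_Z k I J j hIJ
  have s1 : Disjoint (S k (insert j I)) (S k J) := disj_S_S k _ _ (by
    intro l hl
    by_cases h : l = j
    · subst h; simp [hJ]
    · simpa [h] using hIJ l hl h)
  have s2 : Disjoint (S k I) (S k (insert j J)) := disj_S_S k _ _ (by
    intro l hl
    by_cases h : l = j
    · subst h; simp [hI]
    · simpa [h] using hIJ l hl h)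
  have cS : ∀ K, (S k K).card = k := S_card k
  have cZ : ∀ e K, (Z k e K j).card = k := fun e K => Z_card k e K j
  unfold hf hb
  rw [← gg (S k I) (Z k false I j) (S k (insert j I)) (cS _) (cZ _ _) (cS _) z1.symm z2,
    mul_assoc,
    gg (Z k false I j) (S k (insert j I)) (S k J) (cZ _ _) (cS _) (cS _) z2 s1,
    ← gg (Z k false I j) (Z k true J j) (S k J) (cZ _ _) (cZ _ _) (cS _) zw w1,
    ← mul_assoc,
    gg (S k I) (Z k false I j) (Z k true J j) (cS _) (cZ _ _) (cZ _ _) z1.symm zw,
    ← gg (S k I) (S k (insert j J)) (Z k true J j) (cS _) (cS _) (cZ _ _) s2 w2.symm,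
    mul_assoc,
    gg (S k (insert j J)) (Z k true J j) (S k J) (cS _) (cZ _ _) (cS _) w2.symm w1]

/-- The holonomy. -/
noncomputable def Nu (u v : ℂ) : Matrix (Fin d) (Fin d) ℂ :=
  G u v (P (S k ∅)) (P (S k (range k))) * Tb P u v k (range k)

include hP hadj in
lemma Nu_const (u v : ℂ) (huv : u * v = 1) (j : ℕ) (hj : j ≤ k) :
    Tf P u v k (range j) * G u v (P (S k (range j))) (P (S k (Ico j k))) *
      Tb P u v k (Ico j k) = Nu P u v := by
  induction j with
  | zero =>
    have : Tf P u v k (range 0) = 1 := by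
      have : ∀ m, Tf P u v m (range 0) = 1 := by
        intro m
        induction m with
        | zero => simp [Tf]
        | succ m ih => unfold Tf; rw [if_neg (by simp), ih]
      exact this k
    rw [this, one_mul, Nu]
    congr 2
    · simp
    · simp
  | succ j ih =>
    rw [← ih (by omega)]
    have i1 : insert j (range j) = range (j + 1) := (Finset.range_add_one).symm
    have i2 : insert j (Ico (j + 1) k) = Ico j k := by
      ext l; simp only [mem_insert, mem_Ico]; omega
    have t1 := Tf_insert P hP hadj u v huv k (range j) j (by omega) (by simp)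
    have t2 := Tf_insert P hP hadj u v huv k (Ico (j + 1) k) j (by omega) (by simp)
    have f1 : (range j).filter (· < k) = range j := by
      ext l; simp only [mem_filter, mem_range]; omega
    have f2 : (Ico (j + 1) k).filter (· < k) = Ico (j + 1) k := by
      ext l; simp only [mem_filter, mem_Ico]; omega
    rw [f1, i1] at t1
    rw [f2, i2] at t2
    have b1 := Tf_Tb P hP hadj u v huv k (Ico (j + 1) k)
    have b2 := Tf_Tb P hP hadj u v huv k (Ico j k)
    have b2' := mul_eq_one_comm.mp b2
    have hfb := hf_hb P hP hadj u v huv (Ico (j + 1) k) j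
    have t3 : Tb P u v k (Ico j k) = hb P u v (Ico (j + 1) k) j * Tb P u v k (Ico (j + 1) k) := by
      calc Tb P u v k (Ico j k) = Tb P u v k (Ico j k) *
            (Tf P u v k (Ico (j + 1) k) * Tb P u v k (Ico (j + 1) k)) := by rw [b1, mul_one]
        _ = Tb P u v k (Ico j k) * (Tf P u v k (Ico (j + 1) k) *
            (hf P u v (Ico (j + 1) k) j * hb P u v (Ico (j + 1) k) j) *
            Tb P u v k (Ico (j + 1) k)) := by rw [hfb, mul_one]
        _ = (Tb P u v k (Ico j k) * (Tf P u v k (Ico (j + 1) k) *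
            hf P u v (Ico (j + 1) k) j)) * (hb P u v (Ico (j + 1) k) j *
            Tb P u v k (Ico (j + 1) k)) := by noncomm_ring
        _ = _ := by rw [t2, b2', one_mul]
    have lad := ladder P hP hadj u v huv (range j) (Ico (j + 1) k) j (by omega) (by simp)
      (by simp) (by intro l hl h; simp only [mem_range, mem_Ico]; omega)
    rw [i1, i2] at lad
    calc Tf P u v k (range (j + 1)) *
          G u v (P (S k (range (j + 1)))) (P (S k (Ico (j + 1) k))) * Tb P u v k (Ico (j + 1) k)
        = Tf P u v k (range j) * (hf P u v (range j) j *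
          G u v (P (S k (range (j + 1)))) (P (S k (Ico (j + 1) k)))) *
          Tb P u v k (Ico (j + 1) k) := by rw [← t1]; noncomm_ring
      _ = Tf P u v k (range j) * G u v (P (S k (range j))) (P (S k (Ico j k))) *
          (hb P u v (Ico (j + 1) k) j * Tb P u v k (Ico (j + 1) k)) := by rw [lad]; noncomm_ring
      _ = _ := by rw [← t3]

include hP hadj in
lemma Nu_sq (u v : ℂ) (huv : u * v = 1) : Nu P u v * Nu P u v = 1 := by
  have h := Nu_const P hP hadj u v huv k le_rfl
  have e : Ico k k = (∅ : Finset ℕ) := by simp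
  have tb : ∀ m, Tb P u v m (∅ : Finset ℕ) = 1 := by
    intro m
    induction m with
    | zero => simp [Tb]
    | succ m ih => unfold Tb; rw [if_neg (by simp), ih]
  rw [e, tb, mul_one] at h
  nth_rewrite 2 [← h]
  unfold Nu
  have b := mul_eq_one_comm.mp (Tf_Tb P hP hadj u v huv k (range k))
  have s1 : Disjoint (S k ∅) (S k (range k)) := disj_S_S k _ _ (by intro l hl; simp [hl])
  calc G u v (P (S k ∅)) (P (S k (range k))) * Tb P u v k (range k) *
        (Tf P u v k (range k) * G u v (P (S k (range k))) (P (S k ∅)))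
      = G u v (P (S k ∅)) (P (S k (range k))) * (Tb P u v k (range k) *
        Tf P u v k (range k)) * G u v (P (S k (range k))) (P (S k ∅)) := by noncomm_ring
    _ = 1 := by
        rw [b, mul_one, GG P hP hadj u v huv _ _ _ (S_card _ _) (S_card _ _) (S_card _ _) s1
          s1.symm, H_self u v (hP _ (S_card _ _))]

include hP hadj in
lemma Nu_one : Nu P 1 1 = 1 := by
  have g : ∀ s t : Finset (W k), s.card = k → t.card = k → Disjoint s t →
      G 1 1 (P s) (P t) = 1 := fun s t hs ht h => G_one (hP s hs) (hP t ht) (hadj s t hs ht h)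
  have h : ∀ J j, hb P 1 1 J j = 1 := by
    intro J j
    have c1 : Disjoint (C k J j j) (S k J) := disj_C_S k J J j j (by simp)
    have c2 : Disjoint (C k J j j) (S k (insert j J)) :=
      disj_C_S k J _ j j (by intro l _ h1 h2; simp [h1])
    unfold hb
    rw [← GG P hP hadj 1 1 (by norm_num) _ _ _ (S_card _ _) (C_card k J j j) (S_card _ _)
      c2.symm c1, g _ _ (S_card _ _) (C_card k J j j) c2.symm,
      g _ _ (C_card k J j j) (S_card _ _) c1, mul_one]
  have t : ∀ m I, Tb P 1 1 m I = 1 := by
    intro m I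
    induction m with
    | zero => simp [Tb]
    | succ m ih => unfold Tb; rw [ih, h]; simp
  have s1 : Disjoint (S k ∅) (S k (range k)) := disj_S_S k _ _ (by intro l hl; simp [hl])
  rw [Nu, t, g _ _ (S_card _ _) (S_card _ _) s1, mul_one]

include hP hadj in
lemma Nu_neg_one : Nu P (-1) (-1) = -1 := by
  have g : ∀ s t : Finset (W k), s.card = k → t.card = k → Disjoint s t →
      G (-1) (-1) (P s) (P t) = -1 :=
    fun s t hs ht h => G_neg_one (hP s hs) (hP t ht) (hadj s t hs ht h)
  have h : ∀ J j, hb P (-1) (-1) J j = 1 := by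
    intro J j
    have c1 : Disjoint (C k J j j) (S k J) := disj_C_S k J J j j (by simp)
    have c2 : Disjoint (C k J j j) (S k (insert j J)) :=
      disj_C_S k J _ j j (by intro l _ h1 h2; simp [h1])
    unfold hb
    rw [← GG P hP hadj (-1) (-1) (by norm_num) _ _ _ (S_card _ _) (C_card k J j j) (S_card _ _)
      c2.symm c1, g _ _ (S_card _ _) (C_card k J j j) c2.symm,
      g _ _ (C_card k J j j) (S_card _ _) c1, neg_mul_neg, mul_one]
  have t : ∀ m I, Tb P (-1) (-1) m I = 1 := by
    intro m I
    induction m with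
    | zero => simp [Tb]
    | succ m ih => unfold Tb; rw [ih, h]; simp
  have s1 : Disjoint (S k ∅) (S k (range k)) := disj_S_S k _ _ (by intro l hl; simp [hl])
  rw [Nu, t, g _ _ (S_card _ _) (S_card _ _) s1, mul_one]

lemma continuous_H {f g : ℝ → ℂ} (hf' : Continuous f) (hg : Continuous g)
    (a b : Fin 3 → Matrix (Fin d) (Fin d) ℂ) : Continuous (fun t => H (f t) (g t) a b) := by
  unfold H
  fun_prop

lemma continuous_G {f g : ℝ → ℂ} (hf' : Continuous f) (hg : Continuous g)
    (a b : Fin 3 → Matrix (Fin d) (Fin d) ℂ) : Continuous (fun t => G (f t) (g t) a b) := by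
  unfold G
  fun_prop

lemma continuous_Tb {f g : ℝ → ℂ} (hf' : Continuous f) (hg : Continuous g) (m : ℕ)
    (I : Finset ℕ) : Continuous (fun t => Tb P (f t) (g t) m I) := by
  induction m with
  | zero => simpa [Tb] using continuous_const
  | succ m ih =>
    unfold Tb
    split_ifs with h
    · exact (continuous_H hf' hg _ _).mul ih
    · exact ih

lemma continuous_Nu {f g : ℝ → ℂ} (hf' : Continuous f) (hg : Continuous g) :
    Continuous (fun t => Nu P (f t) (g t)) :=
  (continuous_G hf' hg _ _).mul (continuous_Tb P hf' hg _ _)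

include hP hadj in
theorem core_contradiction : d = 0 := by
  by_contra hd
  have hd' : 0 < d := Nat.pos_of_ne_zero hd
  have : Nonempty (Fin d) := ⟨⟨0, hd'⟩⟩
  set f : ℝ → ℂ := fun t => Complex.exp (t * Complex.I) with hf'
  set g : ℝ → ℂ := fun t => Complex.exp (-(t * Complex.I)) with hg
  have cf : Continuous f := by rw [hf']; fun_prop
  have cg : Continuous g := by rw [hg]; fun_prop
  have huv : ∀ t, f t * g t = 1 := by
    intro t
    rw [hf', hg]
    simp only
    rw [← Complex.exp_add, add_neg_cancel, Complex.exp_zero]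
  set N : ℝ → Matrix (Fin d) (Fin d) ℂ := fun t => Nu P (f t) (g t) with hN
  have cN : Continuous N := continuous_Nu P cf cg
  have sq : ∀ t, N t * N t = 1 := fun t => Nu_sq P hP hadj _ _ (huv t)
  have key : ∀ t, N t = 1 ↔ (N t + 1).det ≠ 0 := by
    intro t
    constructor
    · intro h
      rw [h, ← two_smul ℂ (1 : Matrix (Fin d) (Fin d) ℂ), Matrix.det_smul, Matrix.det_one,
        mul_one]
      exact pow_ne_zero _ two_ne_zero
    · intro h
      have h1 : (N t - 1) * (N t + 1) = 0 := by
        have : (N t - 1) * (N t + 1) = N t * N t - 1 := by noncomm_ring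
        rw [this, sq t, sub_self]
      have h2 : IsUnit (N t + 1) := (Matrix.isUnit_iff_isUnit_det _).mpr (isUnit_iff_ne_zero.mpr h)
      have h3 := (h2.mul_left_eq_zero).mp h1
      exact sub_eq_zero.mp h3
  have hcl : IsClopen {t | N t = 1} := by
    constructor
    · exact isClosed_eq cN continuous_const
    · have : {t | N t = 1} = {t | (N t + 1).det ≠ 0} := by
        ext t; exact key t
      rw [this]
      exact isOpen_ne_fun ((cN.add continuous_const).matrix_det) continuous_const
  have h0 : N 0 = 1 := by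
    have : N 0 = Nu P 1 1 := by rw [hN, hf', hg]; simp
    rw [this, Nu_one P hP hadj]
  have hall := hcl.eq_univ ⟨0, h0⟩
  have hpi : N Real.pi = 1 := by
    have : Real.pi ∈ {t | N t = 1} := by rw [hall]; trivial
    exact this
  have hpi' : N Real.pi = -1 := by
    have : N Real.pi = Nu P (-1) (-1) := by
      rw [hN, hf', hg]
      simp only [Complex.exp_neg, Complex.exp_pi_mul_I]
      norm_num
    rw [this, Nu_neg_one P hP hadj]
  rw [hpi'] at hpi
  have h1 := congrFun (congrFun hpi ⟨0, hd'⟩) ⟨0, hd'⟩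
  simp at h1
  norm_num at h1

end core

/-! ### Back to the Kneser graph -/

lemma card_W (k : ℕ) : Fintype.card (W k) = 2 * k + 2 := by
  simp [W]; ring

/-- No quantum `3`-colouring of `K(2k+2,k)`. -/
theorem no_three (k : ℕ) (hk : 1 ≤ k) : ¬ QuantumColourable (kneser (2 * k + 2) k) 3 := by
  rintro ⟨d, hd, P, hP⟩
  let e : W k ≃ Fin (2 * k + 2) := Fintype.equivFinOfCardEq (card_W k)
  let Q : Finset (W k) → Fin 3 → Matrix (Fin d) (Fin d) ℂ := fun s =>
    if h : (s.map e.toEmbedding).card = k then P ⟨s.map e.toEmbedding, h⟩ else 0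
  have hQ : ∀ s, s.card = k → IsPVM (Q s) := by
    intro s hs
    have h : (s.map e.toEmbedding).card = k := by rw [card_map, hs]
    have : Q s = P ⟨s.map e.toEmbedding, h⟩ := dif_pos h
    rw [this]
    refine ⟨hP.herm _, hP.idem _, ?_⟩
    rw [← hP.sum_one ⟨s.map e.toEmbedding, h⟩, Fin.sum_univ_three]
  have hadj : ∀ s t : Finset (W k), s.card = k → t.card = k → Disjoint s t →
      ∀ i, Q s i * Q t i = 0 := by
    intro s t hs ht hst i
    have h : (s.map e.toEmbedding).card = k := by rw [card_map, hs]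
    have h' : (t.map e.toEmbedding).card = k := by rw [card_map, ht]
    have e1 : Q s = P ⟨s.map e.toEmbedding, h⟩ := dif_pos h
    have e2 : Q t = P ⟨t.map e.toEmbedding, h'⟩ := dif_pos h'
    rw [e1, e2]
    apply hP.orth
    have hd : Disjoint (s.map e.toEmbedding) (t.map e.toEmbedding) :=
      (Finset.disjoint_map _).mpr hst
    refine ⟨?_, hd⟩
    intro hc
    have hc' : s.map e.toEmbedding = t.map e.toEmbedding := congrArg Subtype.val hc
    rw [hc'] at hd
    have := (Finset.disjoint_self_iff_empty _).mp hd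
    rw [this] at h'
    simp at h'
    omega
  have := core_contradiction Q hQ hadj
  omega

lemma colourable_mono {V : Type} (G : SimpleGraph V) {c c' : ℕ} (h : c ≤ c')
    (hc : QuantumColourable G c) : QuantumColourable G c' := by
  obtain ⟨d, hd, P, hP⟩ := hc
  refine ⟨d, hd, fun v i => if hi : (i : ℕ) < c then P v ⟨i, hi⟩ else 0, ?_, ?_, ?_, ?_⟩
  · intro v i
    split_ifs with hi
    · exact hP.herm _ _
    · simp
  · intro v i
    split_ifs with hi
    · exact hP.idem _ _
    · simp
  · intro v
    rw [← hP.sum_one v]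
    symm
    rw [Fin.sum_univ_eq_sum_range (fun i => if hi : i < c then P v ⟨i, hi⟩ else 0) c',
      ← Finset.sum_subset (Finset.range_subset_range.mpr h), ← Fin.sum_univ_eq_sum_range]
    · apply Finset.sum_congr rfl
      intro i _
      rw [dif_pos i.2]
    · intro x _ hx
      rw [dif_neg (by simpa using hx)]
  · intro u v huv i
    split_ifs with hi
    · exact hP.orth u v huv _
    · simp

/-- A classical `4`-colouring of `K(2k+2,k)`. -/
theorem four (k : ℕ) (hk : 1 ≤ k) : QuantumColourable (kneser (2 * k + 2) k) 4 := by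
  classical
  let col : {s : Finset (Fin (2 * k + 2)) // s.card = k} → Fin 4 := fun s =>
    if (⟨0, by omega⟩ : Fin (2 * k + 2)) ∈ s.1 then 0
    else if (⟨1, by omega⟩ : Fin (2 * k + 2)) ∈ s.1 then 1
    else if (⟨2, by omega⟩ : Fin (2 * k + 2)) ∈ s.1 then 2 else 3
  have hcol : ∀ u v, (kneser (2 * k + 2) k).Adj u v → col u ≠ col v := by
    rintro u v ⟨_, huv⟩ hc
    rw [Finset.disjoint_left] at huv
    simp only [col] at hc
    by_cases u0 : (⟨0, by omega⟩ : Fin (2 * k + 2)) ∈ u.1
    · have v0 := huv u0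
      rw [if_pos u0, if_neg v0] at hc
      split_ifs at hc <;> exact absurd hc (by decide)
    by_cases v0 : (⟨0, by omega⟩ : Fin (2 * k + 2)) ∈ v.1
    · rw [if_neg u0, if_pos v0] at hc
      split_ifs at hc <;> exact absurd hc (by decide)
    rw [if_neg u0, if_neg v0] at hc
    by_cases u1 : (⟨1, by omega⟩ : Fin (2 * k + 2)) ∈ u.1
    · have v1 := huv u1
      rw [if_pos u1, if_neg v1] at hc
      split_ifs at hc <;> exact absurd hc (by decide)
    by_cases v1 : (⟨1, by omega⟩ : Fin (2 * k + 2)) ∈ v.1
    · rw [if_neg u1, if_pos v1] at hc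
      split_ifs at hc <;> exact absurd hc (by decide)
    rw [if_neg u1, if_neg v1] at hc
    by_cases u2 : (⟨2, by omega⟩ : Fin (2 * k + 2)) ∈ u.1
    · have v2 := huv u2
      rw [if_pos u2, if_neg v2] at hc
      exact absurd hc (by decide)
    by_cases v2 : (⟨2, by omega⟩ : Fin (2 * k + 2)) ∈ v.1
    · rw [if_neg u2, if_pos v2] at hc
      exact absurd hc (by decide)
    -- both sets avoid the three points
    have hsub : u.1 ∪ v.1 ∪ {⟨0, by omega⟩, ⟨1, by omega⟩, ⟨2, by omega⟩} ⊆
      (univ : Finset (Fin (2 * k + 2))) := subset_univ _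
    have h1 : (u.1 ∪ v.1).card = 2 * k := by
      rw [card_union_of_disjoint (Finset.disjoint_left.mpr huv), u.2, v.2]; ring
    have h2 : ({⟨0, by omega⟩, ⟨1, by omega⟩, ⟨2, by omega⟩} :
        Finset (Fin (2 * k + 2))).card = 3 := by
      rw [card_eq_three]
      refine ⟨_, _, _, ?_, ?_, ?_, rfl⟩ <;> simp [Fin.ext_iff]
    have h3 : Disjoint (u.1 ∪ v.1) {⟨0, by omega⟩, ⟨1, by omega⟩, ⟨2, by omega⟩} := by
      rw [Finset.disjoint_right]
      intro x hx
      simp only [mem_insert, mem_singleton] at hx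
      rw [mem_union, not_or]
      rcases hx with rfl | rfl | rfl
      · exact ⟨u0, v0⟩
      · exact ⟨u1, v1⟩
      · exact ⟨u2, v2⟩
    have h4 := card_le_card hsub
    rw [card_union_of_disjoint h3, h1, h2, card_univ, Fintype.card_fin] at h4
    omega
  refine ⟨1, le_rfl, fun v i => if col v = i then 1 else 0, ?_, ?_, ?_, ?_⟩
  · intro v i; split_ifs <;> simp
  · intro v i; split_ifs <;> simp
  · intro v; simp
  · intro u v huv i
    have := hcol u v huv
    by_cases h1 : col u = i
    · have h2 : col v ≠ i := fun h => this (h1.trans h.symm)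
      simp [h2]
    · simp [h1]

/-- For every `k ≥ 1` the quantum chromatic number of the Kneser graph `K(2k+2,k)` equals `4`. -/
theorem result : ∀ k : ℕ, 1 ≤ k → chiQ (kneser (2 * k + 2) k) = 4 := by
  intro k hk
  unfold chiQ
  apply le_antisymm
  · exact Nat.sInf_le (four k hk)
  · apply le_csInf ⟨4, four k hk⟩
    intro c hc
    by_contra h
    exact no_three k hk (colourable_mono _ (by omega) hc)

end Pool.Agent.Results.MP_fbcaa5_co.KneserTwoKPlusTwo
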